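import Mathlib

set_option autoImplicit false

/-! Computable equivalence structures and `Δ⁰₂`-categoricity. -/

namespace Pool.Agent.H668.Eqv

/-- a computable equivalence structure: the universe is a computable set of natural numbers and
`rel` is a computable relation, which is an equivalence relation on the universe -/
structure CES where
  dom : ℕ → Prop
  rel : ℕ → ℕ → Prop
  cdom : ComputablePred dom
  crel : ComputablePred fun p : ℕ × ℕ => rel p.1 p.2
  refl : ∀ x, dom x → rel x x
  symm : ∀ x y, dom x → dom y → rel x y → rel y x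
  trans : ∀ x y z, dom x → dom y → dom z → rel x y → rel y z → rel x z

/-- the equivalence class of `x` -/
def CES.cls (A : CES) (x : ℕ) : Set ℕ := {y | A.dom y ∧ A.rel x y}

/-- the set of equivalence classes with exactly `k` elements -/
def CES.classes (A : CES) (k : ℕ) : Set (Set ℕ) :=
  {c | ∃ x, A.dom x ∧ c = A.cls x ∧ c.encard = k}

/-- the set of infinite equivalence classes -/
def CES.infClasses (A : CES) : Set (Set ℕ) := {c | ∃ x, A.dom x ∧ c = A.cls x ∧ c.Infinite}

/-- `f` restricts to an isomorphism of `A` onto `B` -/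
def Iso (A B : CES) (f : ℕ → ℕ) : Prop :=
  Set.BijOn f {x | A.dom x} {x | B.dom x} ∧
    ∀ x y, A.dom x → A.dom y → (A.rel x y ↔ B.rel (f x) (f y))

open Classical in
/-- the halting problem: `halt ⟨c, x⟩` is `1` if the `c`-th partial recursive function is
defined at `x`, and `0` otherwise -/
noncomputable def halt (n : ℕ) : ℕ :=
  if (Nat.Partrec.Code.eval (Denumerable.ofNat Nat.Partrec.Code n.unpair.1) n.unpair.2).Dom
  then 1 else 0

/-- `f` is computable in the halting problem, that is, `f` is `Δ⁰₂` -/
def Delta2 (f : ℕ → ℕ) : Prop := TuringReducible (f : ℕ →. ℕ) (halt : ℕ →. ℕ)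

/-- every computable copy of `A` is isomorphic to `A` by an isomorphism computable in the halting
problem -/
def Categorical (A : CES) : Prop :=
  ∀ B : CES, (∃ f, Iso A B f) → ∃ f, Delta2 f ∧ Iso A B f

/-- the sequence `u` is eventually equal to `k` -/
def LimIs (u : ℕ → ℕ) (k : ℕ) : Prop := ∃ s₀, ∀ s ≥ s₀, u s = k

/-- a computable array `g` of nondecreasing functions whose finite limits form a sub-multiset of
the multiset in which every `k` has multiplicity `N k` -/
def IsArray (N : ℕ → ℕ∞) (g : ℕ → ℕ → ℕ) : Prop :=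
  Computable₂ g ∧ (∀ i, Monotone (g i)) ∧ ∀ k, {i | LimIs (g i) k}.encard ≤ N k

/-- the finite limits of every such array are bounded by a `Δ⁰₂` function of the index -/
def ArrayBounded (N : ℕ → ℕ∞) : Prop :=
  ∀ g, IsArray N g → ∃ F, Delta2 F ∧ ∀ i k, LimIs (g i) k → k ≤ F i

/-- for every such array the set of the indices with a finite limit is `Δ⁰₂` -/
def ArrayDecided (N : ℕ → ℕ∞) : Prop :=
  ∀ g, IsArray N g → ∃ F, Delta2 F ∧ ∀ i, F i = 1 ↔ ∃ k, LimIs (g i) k

end Pool.Agent.H668.Eqv
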