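import Mathlib
import Pool.Agent.H668.Eq.Defs

set_option autoImplicit false

/-! The invariant of an element of an equivalence structure; isomorphism by counting. -/

namespace Pool.Agent.H668.Eqv

open Classical

theorem exists_count {P Q : ℕ → Prop} (h : {n | P n}.encard = {n | Q n}.encard) {a : ℕ}
    (ha : P a) : ∃ b, Q b ∧ Nat.count Q b = Nat.count P a := by
  by_cases hQ : (setOf Q).Finite
  · have hP : (setOf P).Finite := by
      rw [← Set.encard_lt_top_iff] at hQ ⊢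
      show {n | P n}.encard < ⊤
      rw [h]
      exact hQ
    have hlt : Nat.count P a < hP.toFinset.card := Nat.count_lt_card hP ha
    have hc : hP.toFinset.card = hQ.toFinset.card := by
      have e1 := hP.encard_eq_coe_toFinset_card
      have e2 := hQ.encard_eq_coe_toFinset_card
      have e3 : (hP.toFinset.card : ℕ∞) = (hQ.toFinset.card : ℕ∞) := by
        rw [← e1, ← e2]
        exact h
      exact_mod_cast e3
    rw [hc] at hlt
    exact ⟨Nat.nth Q (Nat.count P a), Nat.nth_mem_of_lt_card hQ hlt, Nat.count_nth fun _ => hlt⟩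
  · exact ⟨Nat.nth Q (Nat.count P a), Nat.nth_mem_of_infinite hQ _,
      Nat.count_nth_of_infinite hQ _⟩

namespace CES

variable (A : CES)

/-- least element of the class -/
noncomputable def rp (x : ℕ) : ℕ := sInf {y | (A.dom y ∧ A.rel x y) ∨ y = x}

/-- least elements of classes -/
def Rep (a : ℕ) : Prop := A.dom a ∧ ∀ b < a, A.dom b → ¬ A.rel a b

/-- number of elements of the class, `0` if infinite -/
noncomputable def sz (x : ℕ) : ℕ := (A.cls x).ncard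

/-- least elements of the classes of size `σ` -/
def Rk (σ a : ℕ) : Prop := A.Rep a ∧ A.sz a = σ

/-- the invariant -/
noncomputable def inv (x : ℕ) : ℕ × ℕ × ℕ :=
  (A.sz x, Nat.count (A.Rk (A.sz x)) (A.rp x), Nat.count (fun y => y ∈ A.cls x) x)

variable {A}

theorem mem_cls {x : ℕ} (hx : A.dom x) : x ∈ A.cls x := ⟨hx, A.refl x hx⟩

theorem cls_eq {x y : ℕ} (hx : A.dom x) (hy : A.dom y) (h : A.rel x y) : A.cls x = A.cls y := by
  ext z
  constructor
  · rintro ⟨hz, h1⟩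
    exact ⟨hz, A.trans y x z hy hx hz (A.symm x y hx hy h) h1⟩
  · rintro ⟨hz, h1⟩
    exact ⟨hz, A.trans x y z hx hy hz h h1⟩

theorem rp_mem {x : ℕ} (hx : A.dom x) : A.dom (A.rp x) ∧ A.rel x (A.rp x) := by
  have h : A.rp x ∈ {y | (A.dom y ∧ A.rel x y) ∨ y = x} := Nat.sInf_mem ⟨x, Or.inr rfl⟩
  rcases h with h | h
  · exact h
  · rw [h]
    exact ⟨hx, A.refl x hx⟩

theorem rp_le {x y : ℕ} (hy : A.dom y) (h : A.rel x y) : A.rp x ≤ y :=
  Nat.sInf_le (Or.inl ⟨hy, h⟩)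

theorem rp_le_self (x : ℕ) : A.rp x ≤ x := Nat.sInf_le (Or.inr rfl)

theorem rp_rep {x : ℕ} (hx : A.dom x) : A.Rep (A.rp x) := by
  obtain ⟨h1, h2⟩ := rp_mem hx
  refine ⟨h1, fun b hb hd hr => ?_⟩
  have := rp_le (x := x) hd (A.trans x _ b hx h1 hd h2 hr)
  omega

theorem rp_eq_iff {x y : ℕ} (hx : A.dom x) (hy : A.dom y) : A.rel x y ↔ A.rp x = A.rp y := by
  constructor
  · intro h
    apply le_antisymm
    · exact rp_le (rp_mem hy).1 (A.trans x y _ hx hy (rp_mem hy).1 h (rp_mem hy).2)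
    · exact rp_le (rp_mem hx).1 (A.trans y x _ hy hx (rp_mem hx).1 (A.symm x y hx hy h)
        (rp_mem hx).2)
  · intro h
    refine A.trans x (A.rp x) y hx (rp_mem hx).1 hy (rp_mem hx).2 ?_
    rw [h]
    exact A.symm y _ hy (rp_mem hy).1 (rp_mem hy).2

theorem rp_of_rep {a : ℕ} (h : A.Rep a) : A.rp a = a := by
  apply le_antisymm (rp_le_self a)
  by_contra hc
  exact h.2 _ (not_le.1 hc) (rp_mem h.1).1 (rp_mem h.1).2

theorem sz_eq {x y : ℕ} (hx : A.dom x) (hy : A.dom y) (h : A.rel x y) : A.sz x = A.sz y := by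
  unfold sz
  rw [cls_eq hx hy h]

theorem sz_rp {x : ℕ} (hx : A.dom x) : A.sz (A.rp x) = A.sz x :=
  (sz_eq hx (rp_mem hx).1 (rp_mem hx).2).symm

theorem rk_rp {x : ℕ} (hx : A.dom x) : A.Rk (A.sz x) (A.rp x) := ⟨rp_rep hx, sz_rp hx⟩

theorem rel_iff_inv {x y : ℕ} (hx : A.dom x) (hy : A.dom y) :
    A.rel x y ↔ (A.inv x).1 = (A.inv y).1 ∧ (A.inv x).2.1 = (A.inv y).2.1 := by
  constructor
  · intro h
    have h1 := sz_eq hx hy h
    refine ⟨h1, ?_⟩
    show Nat.count (A.Rk (A.sz x)) (A.rp x) = Nat.count (A.Rk (A.sz y)) (A.rp y)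
    rw [h1, (rp_eq_iff hx hy).1 h]
  · rintro ⟨h1, h2⟩
    have h1' : A.sz x = A.sz y := h1
    have h2' : Nat.count (A.Rk (A.sz x)) (A.rp x) = Nat.count (A.Rk (A.sz y)) (A.rp y) := h2
    rw [h1'] at h2'
    have h3 := rk_rp hx
    rw [h1'] at h3
    exact (rp_eq_iff hx hy).2 (Nat.count_injective h3 (rk_rp hy) h2')

theorem inv_inj {x y : ℕ} (hx : A.dom x) (hy : A.dom y) (h : A.inv x = A.inv y) : x = y := by
  have h1 : A.rel x y := (rel_iff_inv hx hy).2 ⟨by rw [h], by rw [h]⟩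
  have h2 : Nat.count (fun z => z ∈ A.cls x) x = Nat.count (fun z => z ∈ A.cls y) y :=
    congrArg (fun p => p.2.2) h
  rw [cls_eq hx hy h1] at h2
  have h3 : x ∈ A.cls y := by
    rw [← cls_eq hx hy h1]
    exact mem_cls hx
  exact Nat.count_injective (p := fun z => z ∈ A.cls y) h3 (mem_cls hy) h2

theorem cls_nonempty {x : ℕ} (hx : A.dom x) : (A.cls x).Nonempty := ⟨x, mem_cls hx⟩

theorem encard_of_sz {B : CES} {x y : ℕ} (hx : A.dom x) (hy : B.dom y) (h : A.sz x = B.sz y) :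
    (A.cls x).encard = (B.cls y).encard := by
  unfold sz at h
  by_cases h1 : (A.cls x).Finite
  · have h2 : 0 < (A.cls x).ncard := (Set.ncard_pos h1).2 (cls_nonempty hx)
    have h3 : (B.cls y).Finite := Set.finite_of_ncard_pos (by omega)
    rw [← h1.cast_ncard_eq, ← h3.cast_ncard_eq, h]
  · have h2 : (A.cls x).ncard = 0 := Set.Infinite.ncard h1
    have h3 : (B.cls y).Infinite := by
      intro h4
      have := (Set.ncard_pos h4).2 (cls_nonempty hy)
      omega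
    rw [Set.Infinite.encard_eq h1, Set.Infinite.encard_eq h3]

theorem inv_ex {B : CES}
    (H : ∀ σ, {a | A.Rk σ a}.encard = {a | B.Rk σ a}.encard) {x : ℕ} (hx : A.dom x) :
    ∃ y, B.dom y ∧ B.inv y = A.inv x := by
  obtain ⟨b, hb1, hb2⟩ := exists_count (H (A.sz x)) (rk_rp hx)
  obtain ⟨hb, hbs⟩ := hb1
  have hdb := hb.1
  obtain ⟨y, hy1, hy2⟩ := exists_count (P := fun z => z ∈ A.cls x) (Q := fun z => z ∈ B.cls b)
    (encard_of_sz hx hdb hbs.symm) (mem_cls hx)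
  obtain ⟨hdy, hr⟩ : B.dom y ∧ B.rel b y := hy1
  have hcls := cls_eq hdb hdy hr
  refine ⟨y, hdy, ?_⟩
  have e1 : B.sz y = A.sz x := by rw [← hbs, sz_eq hdb hdy hr]
  have e2 : B.rp y = b := by
    rw [← (rp_eq_iff hdb hdy).1 hr, rp_of_rep hb]
  show (B.sz y, Nat.count (B.Rk (B.sz y)) (B.rp y), Nat.count (fun z => z ∈ B.cls y) y) = _
  rw [e1, e2, hb2, ← hcls, hy2]
  rfl

theorem iso_of_inv {B : CES}
    (H : ∀ σ, {a | A.Rk σ a}.encard = {a | B.Rk σ a}.encard) {f : ℕ → ℕ}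
    (hf : ∀ x, A.dom x → B.dom (f x) ∧ B.inv (f x) = A.inv x) : Iso A B f := by
  refine ⟨⟨fun x hx => (hf x hx).1, ?_, ?_⟩, ?_⟩
  · intro x hx y hy h
    refine inv_inj hx hy ?_
    rw [← (hf x hx).2, ← (hf y hy).2, h]
  · intro y hy
    obtain ⟨x, hx, h⟩ := inv_ex (fun σ => (H σ).symm) hy
    refine ⟨x, hx, ?_⟩
    exact inv_inj (hf x hx).1 hy (by rw [(hf x hx).2, h])
  · intro x y hx hy
    rw [rel_iff_inv hx hy, rel_iff_inv (hf x hx).1 (hf y hy).1, (hf x hx).2, (hf y hy).2]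

theorem iso_of_card {B : CES}
    (H : ∀ σ, {a | A.Rk σ a}.encard = {a | B.Rk σ a}.encard) : ∃ f, Iso A B f := by
  choose! f hf using fun x (hx : A.dom x) => inv_ex H hx
  exact ⟨f, iso_of_inv H hf⟩

end CES

open CES

theorem Iso.symm {A B : CES} {f : ℕ → ℕ} (h : Iso A B f) : ∃ g, Iso B A g := by
  obtain ⟨hb, hr⟩ := h
  let g := Function.invFunOn f {x | A.dom x}
  have h1 : Set.InvOn g f {x | A.dom x} {x | B.dom x} := hb.invOn_invFunOn
  have h2 : Set.BijOn g {x | B.dom x} {x | A.dom x} := (Set.bijOn_comm h1).2 hb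
  refine ⟨g, h2, fun x y hx hy => ?_⟩
  rw [hr _ _ (h2.mapsTo hx) (h2.mapsTo hy), h1.2 hx, h1.2 hy]

theorem Iso.cls {A B : CES} {f : ℕ → ℕ} (h : Iso A B f) {x : ℕ} (hx : A.dom x) :
    B.cls (f x) = f '' A.cls x := by
  obtain ⟨hb, hr⟩ := h
  ext y
  constructor
  · rintro ⟨hy, hxy⟩
    obtain ⟨z, hz, rfl⟩ := hb.surjOn hy
    exact ⟨z, ⟨hz, (hr x z hx hz).2 hxy⟩, rfl⟩
  · rintro ⟨z, ⟨hz, hxz⟩, rfl⟩
    exact ⟨hb.mapsTo hz, (hr x z hx hz).1 hxz⟩

theorem Iso.encard_cls {A B : CES} {f : ℕ → ℕ} (h : Iso A B f) {x : ℕ} (hx : A.dom x) :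
    (B.cls (f x)).encard = (A.cls x).encard := by
  rw [h.cls hx]
  exact Set.InjOn.encard_image (h.1.injOn.mono fun y hy => hy.1)

theorem Iso.sz {A B : CES} {f : ℕ → ℕ} (h : Iso A B f) {x : ℕ} (hx : A.dom x) :
    B.sz (f x) = A.sz x := by
  unfold CES.sz
  rw [Set.ncard_def, Set.ncard_def, h.encard_cls hx]

theorem Iso.card_le {A B : CES} {f : ℕ → ℕ} (h : Iso A B f) (σ : ℕ) :
    {a | A.Rk σ a}.encard ≤ {a | B.Rk σ a}.encard := by
  refine Set.encard_le_encard_of_injOn (f := fun a => B.rp (f a)) ?_ ?_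
  · rintro a ⟨ha, hs⟩
    have hd := h.1.mapsTo ha.1
    refine ⟨rp_rep hd, ?_⟩
    rw [sz_rp hd, h.sz ha.1, hs]
  · rintro a ⟨ha, _⟩ b ⟨hb, _⟩ hab
    have h1 : B.rel (f a) (f b) :=
      (rp_eq_iff (h.1.mapsTo ha.1) (h.1.mapsTo hb.1)).2 hab
    have h2 := (h.2 a b ha.1 hb.1).2 h1
    have h3 := (rp_eq_iff ha.1 hb.1).1 h2
    rwa [rp_of_rep ha, rp_of_rep hb] at h3

theorem Iso.card {A B : CES} {f : ℕ → ℕ} (h : Iso A B f) (σ : ℕ) :
    {a | A.Rk σ a}.encard = {a | B.Rk σ a}.encard := by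
  obtain ⟨g, hg⟩ := h.symm
  exact le_antisymm (h.card_le σ) (hg.card_le σ)

/-- classes versus least elements of classes -/
theorem classes_encard (A : CES) {k : ℕ} (hk : k ≠ 0) :
    (A.classes k).encard = {a | A.Rk k a}.encard := by
  have h : A.classes k = A.cls '' {a | A.Rk k a} := by
    ext c
    constructor
    · rintro ⟨x, hx, rfl, hc⟩
      refine ⟨A.rp x, ⟨rp_rep hx, ?_⟩, (cls_eq hx (rp_mem hx).1 (rp_mem hx).2).symm⟩
      rw [sz_rp hx]
      unfold CES.sz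
      rw [Set.ncard_def, hc]
      rfl
    · rintro ⟨a, ⟨ha, hs⟩, rfl⟩
      refine ⟨a, ha.1, rfl, ?_⟩
      unfold CES.sz at hs
      have hf : (A.cls a).Finite := Set.finite_of_ncard_ne_zero (by rw [hs]; exact hk)
      rw [← hf.cast_ncard_eq, hs]
  rw [h]
  refine Set.InjOn.encard_image ?_
  rintro a ⟨ha, _⟩ b ⟨hb, _⟩ hab
  have h1 : b ∈ A.cls a := by
    rw [hab]
    exact mem_cls hb.1
  have h3 := (rp_eq_iff ha.1 hb.1).1 h1.2
  rwa [rp_of_rep ha, rp_of_rep hb] at h3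

theorem classes_zero (A : CES) : A.classes 0 = ∅ := by
  ext c
  constructor
  · rintro ⟨x, hx, rfl, hc⟩
    have : (A.cls x).encard = 0 := hc
    rw [Set.encard_eq_zero] at this
    have h := mem_cls hx
    rw [this] at h
    exact h
  · intro h
    exact h.elim

theorem infClasses_finite (A : CES) : A.infClasses.Finite ↔ {a | A.Rk 0 a}.Finite := by
  have h : A.infClasses = A.cls '' {a | A.Rk 0 a} := by
    ext c
    constructor
    · rintro ⟨x, hx, rfl, hc⟩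
      refine ⟨A.rp x, ⟨rp_rep hx, ?_⟩, (cls_eq hx (rp_mem hx).1 (rp_mem hx).2).symm⟩
      rw [sz_rp hx]
      exact hc.ncard
    · rintro ⟨a, ⟨ha, hs⟩, rfl⟩
      refine ⟨a, ha.1, rfl, fun hf => ?_⟩
      have := (Set.ncard_pos hf).2 (cls_nonempty ha.1)
      unfold CES.sz at hs
      omega
  rw [h, Set.finite_image_iff]
  rintro a ⟨ha, _⟩ b ⟨hb, _⟩ hab
  have h1 : b ∈ A.cls a := by
    rw [hab]
    exact mem_cls hb.1
  have h3 := (rp_eq_iff ha.1 hb.1).1 h1.2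
  rwa [rp_of_rep ha, rp_of_rep hb] at h3

end Pool.Agent.H668.Eqv
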