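import Mathlib
import Pool.Graph.R_seed8.Helper743.Oracle
import Pool.Graph.R_seed8.Helper941.Zeta.Cmp
import Pool.Agent.H668.Eq.Defs

set_option autoImplicit false

/-! The limit lemma. -/

namespace Pool.Agent.H668.Eqv

open Classical Filter Nat.Partrec
open Pool.Agent.Helper941.IsoProb Pool.Agent.Helper941.Zeta
open Pool.Agent.Helper743 (TR RecT pre use_principle TR_iff pre_prefix)

/-- limit computable functions -/
def LimC (f : ℕ → ℕ) : Prop :=
  ∃ g : ℕ → ℕ → ℕ, Computable₂ g ∧ ∀ n, LimIs (g n) (f n)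

/-- `Δ⁰₂`-categoricity, limit version -/
def CatL (A : CES) : Prop :=
  ∀ B : CES, (∃ f, Iso A B f) → ∃ f, LimC f ∧ Iso A B f

/-- boundedness, limit version -/
def ABL (N : ℕ → ℕ∞) : Prop :=
  ∀ g : ℕ → ℕ → ℕ, Computable₂ g → (∀ i, Monotone (g i)) →
    (∀ k, {i | LimIs (g i) k}.encard ≤ N k) →
    ∃ F, LimC F ∧ ∀ i k, LimIs (g i) k → k ≤ F i

theorem limIs_iff {u : ℕ → ℕ} {k : ℕ} : LimIs u k ↔ ∀ᶠ s in atTop, u s = k :=
  eventually_atTop.symm

theorem ev_lt (n : ℕ) : ∀ᶠ s in atTop, n < s := eventually_gt_atTop n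

theorem ev_all_lt {P : ℕ → ℕ → Prop} (n : ℕ) (h : ∀ i < n, ∀ᶠ s in atTop, P i s) :
    ∀ᶠ s in atTop, ∀ i < n, P i s :=
  (eventually_all_finite (Set.finite_lt_nat n)).2 h

/-- approximation to the halting problem -/
def halts (s n : ℕ) : ℕ :=
  if (Code.evaln s (Denumerable.ofNat Code n.unpair.1) n.unpair.2).isSome then 1 else 0

theorem c_halts {α : Type} [Primcodable α] {f g : α → ℕ} (hf : Computable f)
    (hg : Computable g) : Computable fun a => halts (f a) (g a) := by
  have h1 : Computable fun a => Code.evaln (f a) (Denumerable.ofNat Code (g a).unpair.1)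
      (g a).unpair.2 :=
    (Code.primrec_evaln.to_comp).comp (c_pair (c_pair hf
      ((Computable.ofNat Code).comp (c_up1 hg))) (c_up2 hg))
  have h2 : Computable fun a => (Code.evaln (f a) (Denumerable.ofNat Code (g a).unpair.1)
      (g a).unpair.2).isSome := Primrec.option_isSome.to_comp.comp h1
  refine (Computable.cond h2 (c_const 1) (c_const 0)).of_eq fun a => ?_
  unfold halts
  cases (Code.evaln (f a) (Denumerable.ofNat Code (g a).unpair.1) (g a).unpair.2).isSome <;> rfl

theorem halts_lim (n : ℕ) : ∀ᶠ s in atTop, halts s n = halt n := by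
  by_cases h : (Code.eval (Denumerable.ofNat Code n.unpair.1) n.unpair.2).Dom
  · have h1 := Part.get_mem h
    rw [Code.evaln_complete] at h1
    obtain ⟨k, hk⟩ := h1
    filter_upwards [eventually_ge_atTop k] with s hs
    have h2 := Code.evaln_mono hs hk
    unfold halts halt
    rw [if_pos h, if_pos]
    rw [Option.mem_def] at h2
    rw [h2]
    rfl
  · refine Eventually.of_forall fun s => ?_
    unfold halts halt
    rw [if_neg h, if_neg]
    intro h1
    obtain ⟨y, hy⟩ := Option.isSome_iff_exists.1 h1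
    exact h (Part.dom_iff_mem.2 ⟨y, Code.evaln_sound hy⟩)

theorem limit_lemma (f : ℕ → ℕ) : Delta2 f ↔ LimC f := by
  unfold Delta2
  rw [← TR_iff]
  constructor
  · intro h
    obtain ⟨ev, cev, mev, hev⟩ := use_principle halt _ h
    refine ⟨fun x s => (ev ((List.range s).map (halts s)) x).getD 0, ?_, fun x => ?_⟩
    · have h1 : Computable fun p : ℕ × ℕ => (List.range p.2).map (halts p.2) :=
        c_tab (g := fun (p : ℕ × ℕ) n => halts p.2 n) (c_snd c_id)
          (c_halts (c_snd (c_fst c_id)) (c_snd c_id))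
      exact Computable.option_getD (cev.comp h1 (c_fst c_id)) (c_const 0)
    · rw [limIs_iff]
      obtain ⟨n, hn⟩ := (hev x (f x)).1 (Part.mem_some _)
      filter_upwards [eventually_ge_atTop n,
        ev_all_lt n fun j _ => halts_lim j] with s h1 h2
      have h3 : pre (halts s) n = pre halt n := by
        unfold pre
        apply List.map_congr_left
        intro j hj
        exact h2 j (List.mem_range.1 hj)
      have h4 : pre halt n <+: (List.range s).map (halts s) := by
        rw [← h3]
        exact pre_prefix (halts s) h1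
      rw [mev _ _ _ _ h4 hn]
      rfl
  · rintro ⟨u, cu, hu⟩
    let ψ : ℕ →. ℕ := fun v => Nat.rfind fun t =>
      Part.some (decide (u v.unpair.1 (v.unpair.2 + t) ≠ u v.unpair.1 v.unpair.2))
    have hψ : Nat.Partrec ψ := by
      rw [← Partrec.nat_iff]
      refine Partrec.rfind (p := fun (v : ℕ) (t : ℕ) => Part.some (decide
        (u v.unpair.1 (v.unpair.2 + t) ≠ u v.unpair.1 v.unpair.2))) ?_
      have h1 : ComputablePred fun p : ℕ × ℕ =>
          u p.1.unpair.1 (p.1.unpair.2 + p.2) ≠ u p.1.unpair.1 p.1.unpair.2 :=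
        p_not (p_eq (cu.comp (c_up1 (c_fst c_id)) (c_add (c_up2 (c_fst c_id)) (c_snd c_id)))
          (cu.comp (c_up1 (c_fst c_id)) (c_up2 (c_fst c_id))))
      have h2 : Computable fun p : ℕ × ℕ => decide
          (u p.1.unpair.1 (p.1.unpair.2 + p.2) ≠ u p.1.unpair.1 p.1.unpair.2) :=
        (c_decide h1).of_eq fun a => decide_eq_decide.2 Iff.rfl
      exact h2.partrec
    obtain ⟨c, hc⟩ := Code.exists_code.1 hψ
    have key : ∀ n s, halt (Nat.pair (Encodable.encode c) (Nat.pair n s)) = 0 ↔
        ∀ t, u n (s + t) = u n s := by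
      intro n s
      unfold halt
      rw [Nat.unpair_pair, Denumerable.ofNat_encode, hc]
      show (if (ψ (Nat.pair n s)).Dom then 1 else 0) = 0 ↔ _
      have h1 : (ψ (Nat.pair n s)).Dom ↔ ∃ t, u n (s + t) ≠ u n s := by
        refine Nat.rfind_dom.trans ?_
        constructor
        · rintro ⟨t, h1, _⟩
          have h2 := of_decide_eq_true (Part.mem_some_iff.1 h1).symm
          rw [Nat.unpair_pair] at h2
          exact ⟨t, h2⟩
        · rintro ⟨t, h1⟩
          refine ⟨t, Part.mem_some_iff.2 (decide_eq_true ?_).symm, fun _ => trivial⟩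
          rw [Nat.unpair_pair]
          exact h1
      by_cases h2 : (ψ (Nat.pair n s)).Dom
      · rw [if_pos h2]
        obtain ⟨t, ht⟩ := h1.1 h2
        exact ⟨fun h => absurd h (by norm_num), fun h => absurd (h t) ht⟩
      · rw [if_neg h2]
        refine ⟨fun _ t => ?_, fun _ => rfl⟩
        by_contra h3
        exact h2 (h1.2 ⟨t, h3⟩)
    have hp : RecT {(halt : ℕ →. ℕ)} fun v => halt (Nat.pair (Encodable.encode c) v) :=
      (TR.refl halt).comp (Pool.Agent.Helper743.Computable.recT (c_npair (c_const _) c_id))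
    have hex : ∀ a, ∃ n, (fun v => halt (Nat.pair (Encodable.encode c) v)) (Nat.pair a n) = 0 := by
      intro a
      obtain ⟨s₀, hs⟩ := hu a
      refine ⟨s₀, (key a s₀).2 fun t => ?_⟩
      rw [hs _ (Nat.le_add_right _ _), hs _ le_rfl]
    have hfd := RecT.find hp hex
    have h1 : Computable fun v : ℕ => u v.unpair.1 v.unpair.2 :=
      cu.comp (c_up1 c_id) (c_up2 c_id)
    have h2 := (Pool.Agent.Helper743.Computable.recT (O := {(halt : ℕ →. ℕ)}) h1).comp
      (RecT.pair (Pool.Agent.Helper743.Computable.recT c_id) hfd)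
    have h3 : (fun n => u (Nat.pair n (Nat.find (hex n))).unpair.1
        (Nat.pair n (Nat.find (hex n))).unpair.2) = f := by
      funext n
      rw [Nat.unpair_pair]
      have h4 := (key n _).1 (Nat.find_spec (hex n))
      obtain ⟨s₀, hs⟩ := hu n
      have h5 := h4 s₀
      rw [hs _ (Nat.le_add_left _ _)] at h5
      exact h5.symm
    unfold TR
    rw [h3] at h2
    exact h2

end Pool.Agent.H668.Eqv
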