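import Mathlib
import Pool.Graph.R_seed8.Helper941.Zeta.Cmp
import Pool.Agent.H668.Eq.Inv
import Pool.Agent.H668.Eq.Lim

set_option autoImplicit false

/-! Equivalence structures in which infinity of a class is `Δ⁰₂`. -/

namespace Pool.Agent.H668.Eqv

open Classical Filter CES
open Pool.Agent.Helper941.IsoProb Pool.Agent.Helper941.Zeta

theorem c_count {α : Type} [Primcodable α] {f : α → ℕ} {P : α → ℕ → Prop}
    [∀ a, DecidablePred (P a)] (hf : Computable f)
    (hP : ComputablePred fun p : α × ℕ => P p.1 p.2) :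
    Computable fun a => Nat.count (P a) (f a) := by
  have h : Computable fun a =>
      (Nat.rec (motive := fun _ => ℕ) 0 (fun n l => l + if P a n then 1 else 0) (f a) : ℕ) := by
    refine Computable.nat_rec (f := f) (g := fun _ => (0 : ℕ))
      (h := fun (a : α) (q : ℕ × ℕ) => q.2 + if P a q.1 then 1 else 0) hf (Computable.const 0) ?_
    have h1 : ComputablePred fun p : α × ℕ × ℕ => P p.1 p.2.1 :=
      computablePred_comp (P := fun p : α × ℕ => P p.1 p.2) hP
        (c_pair (c_fst c_id) (c_fst (c_snd c_id)))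
    exact c_add (c_snd (c_snd c_id)) (c_ite h1 (c_const 1) (c_const 0))
  refine h.of_eq fun a => ?_
  induction f a with
  | zero => simp
  | succ n ih => rw [Nat.count_succ, ← ih]

section
variable {α : Type} [Primcodable α]

theorem p_dom (A : CES) {f : α → ℕ} (hf : Computable f) : ComputablePred fun a => A.dom (f a) :=
  computablePred_comp A.cdom hf

theorem p_rel (A : CES) {f g : α → ℕ} (hf : Computable f) (hg : Computable g) :
    ComputablePred fun a => A.rel (f a) (g a) :=
  computablePred_comp (P := fun p : ℕ × ℕ => A.rel p.1 p.2) A.crel (c_pair hf hg)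

theorem p_cls (A : CES) {f g : α → ℕ} (hf : Computable f) (hg : Computable g) :
    ComputablePred fun a => g a ∈ A.cls (f a) :=
  p_and (p_dom A hg) (p_rel A hf hg)

theorem p_rep0 (A : CES) : ComputablePred A.Rep :=
  p_and A.cdom (p_ball (f := fun a => a) (P := fun a b => A.dom b → ¬ A.rel a b) c_id
    (p_imp (p_dom A (c_snd c_id)) (p_not (p_rel A (c_fst c_id) (c_snd c_id)))))

theorem p_rep (A : CES) {f : α → ℕ} (hf : Computable f) : ComputablePred fun a => A.Rep (f a) :=
  computablePred_comp (p_rep0 A) hf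

theorem c_rp0 (A : CES) : Computable A.rp :=
  c_least (P := fun x y => (A.dom y ∧ A.rel x y) ∨ y = x)
    (p_or (p_and (p_dom A (c_snd c_id)) (p_rel A (c_fst c_id) (c_snd c_id)))
      (p_eq (c_snd c_id) (c_fst c_id))) fun a => ⟨a, Or.inr rfl⟩

theorem c_rp (A : CES) {f : α → ℕ} (hf : Computable f) : Computable fun a => A.rp (f a) :=
  (c_rp0 A).comp hf

theorem c_cnt (A : CES) {f g : α → ℕ} (hf : Computable f) (hg : Computable g) :
    Computable fun a => Nat.count (fun y => y ∈ A.cls (f a)) (g a) :=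
  c_count hg (p_cls A (hf.comp (c_fst c_id)) (c_snd c_id))

end

/-- infinity of the class is a `Δ⁰₂` property -/
def InfD2 (A : CES) : Prop :=
  ∃ q : ℕ → ℕ → ℕ, Computable₂ q ∧
    ∀ x, A.dom x → ∀ᶠ s in atTop, (q x s = 1 ↔ (A.cls x).Infinite)

namespace CES

variable (A : CES) (q : ℕ → ℕ → ℕ)

/-- approximation to the size -/
noncomputable def szs (x s : ℕ) : ℕ :=
  if q x s = 1 then 0 else Nat.count (fun y => y ∈ A.cls x) s

/-- approximation to the invariant -/
noncomputable def invs (x s : ℕ) : ℕ × ℕ × ℕ :=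
  (A.szs q x s, Nat.count (fun a => A.Rep a ∧ A.szs q a s = A.szs q x s) (A.rp x),
    Nat.count (fun y => y ∈ A.cls x) x)

end CES

theorem count_eq_ncard {S : Set ℕ} (h : S.Finite) : ∀ᶠ s in atTop,
    Nat.count (fun y => y ∈ S) s = S.ncard := by
  obtain ⟨m, hm⟩ := h.bddAbove
  filter_upwards [ev_lt m] with s hs
  rw [Nat.count_eq_card_filter_range]
  have : S = ((Finset.range s).filter fun y => y ∈ S : Finset ℕ) := by
    ext y
    simp only [Finset.coe_filter, Finset.mem_range, Set.mem_ofPred_eq]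
    constructor
    · intro hy
      exact ⟨lt_of_le_of_lt (hm hy) hs, hy⟩
    · exact fun h => h.2
  conv_rhs => rw [this]
  rw [Set.ncard_coe_finset]

section
variable {A : CES} {q : ℕ → ℕ → ℕ}

theorem szs_lim (hq : ∀ x, A.dom x → ∀ᶠ s in atTop, (q x s = 1 ↔ (A.cls x).Infinite))
    {x : ℕ} (hx : A.dom x) : ∀ᶠ s in atTop, A.szs q x s = A.sz x := by
  by_cases hi : (A.cls x).Infinite
  · filter_upwards [hq x hx] with s hs
    unfold szs sz
    rw [if_pos (hs.2 hi), hi.ncard]
  · filter_upwards [hq x hx, count_eq_ncard (Set.not_infinite.1 hi)] with s hs h2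
    unfold szs sz
    rw [if_neg (fun h => hi (hs.1 h)), h2]

theorem invs_lim (hq : ∀ x, A.dom x → ∀ᶠ s in atTop, (q x s = 1 ↔ (A.cls x).Infinite))
    {x : ℕ} (hx : A.dom x) : ∀ᶠ s in atTop, A.invs q x s = A.inv x := by
  have h1 : ∀ᶠ s in atTop, ∀ i < A.rp x, A.Rep i → A.szs q i s = A.sz i := by
    refine ev_all_lt _ fun i _ => ?_
    by_cases hi : A.Rep i
    · filter_upwards [szs_lim hq hi.1] with s hs _
      exact hs
    · exact Eventually.of_forall fun s h => absurd h hi
  filter_upwards [h1, szs_lim hq hx] with s h2 h3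
  unfold invs inv
  rw [h3]
  congr 2
  rw [Nat.count_eq_card_filter_range, Nat.count_eq_card_filter_range]
  congr 1
  apply Finset.filter_congr
  intro i hi
  rw [Finset.mem_range] at hi
  unfold Rk
  constructor
  · rintro ⟨ha, hb⟩
    exact ⟨ha, by rw [← h2 i hi ha, hb]⟩
  · rintro ⟨ha, hb⟩
    exact ⟨ha, by rw [h2 i hi ha, hb]⟩

variable {α : Type} [Primcodable α]

theorem c_szs (A : CES) (hq : Computable₂ q) {f g : α → ℕ} (hf : Computable f)
    (hg : Computable g) : Computable fun a => A.szs q (f a) (g a) :=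
  c_ite (p_eq (hq.comp hf hg) (c_const 1)) (c_const 0) (c_cnt A hf hg)

theorem c_invs (A : CES) (hq : Computable₂ q) {f g : α → ℕ} (hf : Computable f)
    (hg : Computable g) : Computable fun a => A.invs q (f a) (g a) := by
  refine c_pair (c_szs A hq hf hg) (c_pair (c_count (c_rp A hf) ?_) (c_cnt A hf hf))
  exact p_and (p_rep A (c_snd c_id)) (p_eq (c_szs A hq (c_snd c_id) (hg.comp (c_fst c_id)))
    (c_szs A hq (hf.comp (c_fst c_id)) (hg.comp (c_fst c_id))))

end

theorem p_eq3 {α : Type} [Primcodable α] {f g : α → ℕ × ℕ × ℕ} (hf : Computable f)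
    (hg : Computable g) : ComputablePred fun a => f a = g a :=
  (p_and (p_eq (c_fst hf) (c_fst hg)) (p_and (p_eq (c_fst (c_snd hf)) (c_fst (c_snd hg)))
    (p_eq (c_snd (c_snd hf)) (c_snd (c_snd hg))))).of_eq fun a => by
      rw [Prod.ext_iff, Prod.ext_iff]

/-- bounded search along an approximation -/
theorem delta2_search {D : ℕ → Prop} (hD : ComputablePred D) {P : ℕ → ℕ → ℕ → Prop}
    (hP : ComputablePred fun p : (ℕ × ℕ) × ℕ => P p.1.1 p.1.2 p.2) {f : ℕ → ℕ}
    (h0 : ∀ x, ¬ D x → f x = 0)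
    (h1 : ∀ x, D x → ∀ᶠ s in atTop, P x s (f x))
    (h2 : ∀ x, D x → ∀ y < f x, ∀ᶠ s in atTop, ¬ P x s y) : LimC f := by
  refine ⟨fun x s => if D x then sInf {y | P x s y ∨ y = s} else 0, ?_, fun x => ?_⟩
  · refine c_ite (computablePred_comp hD (c_fst c_id)) ?_ (c_const 0)
    exact c_least (P := fun (p : ℕ × ℕ) y => P p.1 p.2 y ∨ y = p.2)
      (p_or hP (p_eq (c_snd c_id) (c_snd (c_fst c_id)))) fun a => ⟨a.2, Or.inr rfl⟩
  · rw [limIs_iff]
    by_cases hx : D x
    · filter_upwards [h1 x hx, ev_all_lt _ (h2 x hx), ev_lt (f x)] with s e1 e2 e3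
      rw [if_pos hx]
      apply le_antisymm (Nat.sInf_le (Or.inl e1))
      by_contra hc
      have hc := not_le.1 hc
      have hm : sInf {y | P x s y ∨ y = s} ∈ {y | P x s y ∨ y = s} :=
        Nat.sInf_mem ⟨f x, Or.inl e1⟩
      rcases hm with hm | hm
      · exact e2 _ hc hm
      · omega
    · refine Eventually.of_forall fun s => ?_
      show (if D x then sInf {y | P x s y ∨ y = s} else 0) = f x
      rw [if_neg hx, h0 x hx]

theorem iso_of_infD2 {A B : CES} (hA : InfD2 A) (hB : InfD2 B)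
    (H : ∀ σ, {a | A.Rk σ a}.encard = {a | B.Rk σ a}.encard) : ∃ f, LimC f ∧ Iso A B f := by
  obtain ⟨qA, cA, hA⟩ := hA
  obtain ⟨qB, cB, hB⟩ := hB
  choose! f hf using fun x (hx : A.dom x) => inv_ex H hx
  refine ⟨fun x => if A.dom x then f x else 0, ?_, iso_of_inv H fun x hx => ?_⟩
  · refine delta2_search (D := A.dom) A.cdom
      (P := fun x s y => B.dom y ∧ B.invs qB y s = A.invs qA x s) ?_ ?_ ?_ ?_
    · refine p_and (p_dom B (c_snd c_id)) (p_eq3 (c_invs B cB (c_snd c_id) (c_snd (c_fst c_id)))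
        (c_invs A cA (c_fst (c_fst c_id)) (c_snd (c_fst c_id))))
    · intro x hx
      exact if_neg hx
    · intro x hx
      simp only [if_pos hx]
      filter_upwards [invs_lim hA hx, invs_lim hB (hf x hx).1] with s h1 h2
      exact ⟨(hf x hx).1, by rw [h1, h2, (hf x hx).2]⟩
    · intro x hx y hy
      simp only [if_pos hx] at hy
      by_cases hd : B.dom y
      · filter_upwards [invs_lim hA hx, invs_lim hB hd] with s h1 h2
        rintro ⟨_, h3⟩
        rw [h1, h2, ← (hf x hx).2] at h3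
        have := inv_inj hd (hf x hx).1 h3
        omega
      · exact Eventually.of_forall fun s h => hd h.1
  · simp only [if_pos hx]
    exact hf x hx

/-- the inverse of a `Δ⁰₂` isomorphism -/
theorem Iso.symm_delta2 {A B : CES} {f : ℕ → ℕ} (hf : LimC f) (h : Iso A B f) :
    ∃ g, LimC g ∧ Iso B A g := by
  obtain ⟨u, cu, hu⟩ := hf
  obtain ⟨hb, hr⟩ := h
  have hu' : ∀ n, ∀ᶠ s in atTop, u n s = f n := fun n => limIs_iff.1 (hu n)
  let g := Function.invFunOn f {x | A.dom x}
  have h1 : Set.InvOn g f {x | A.dom x} {x | B.dom x} := hb.invOn_invFunOn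
  have h2 : Set.BijOn g {x | B.dom x} {x | A.dom x} := (Set.bijOn_comm h1).2 hb
  have e : ∀ x, B.dom x → (if B.dom x then g x else 0) = g x := fun x hx => if_pos hx
  refine ⟨fun x => if B.dom x then g x else 0, ?_, ?_, fun x y hx hy => ?_⟩
  · refine delta2_search (D := B.dom) B.cdom (P := fun y s x => A.dom x ∧ u x s = y) ?_ ?_ ?_ ?_
    · exact p_and (p_dom A (c_snd c_id)) (p_eq (cu.comp (c_snd c_id) (c_snd (c_fst c_id)))
        (c_fst (c_fst c_id)))
    · intro x hx
      exact if_neg hx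
    · intro y hy
      simp only [if_pos hy]
      filter_upwards [hu' (g y)] with s h3
      exact ⟨h2.mapsTo hy, by rw [h3]; exact h1.2 hy⟩
    · intro y hy x hx
      simp only [if_pos hy] at hx
      by_cases hd : A.dom x
      · filter_upwards [hu' x] with s h3
        rintro ⟨_, h4⟩
        rw [h3] at h4
        have h5 : g (f x) = x := h1.1 hd
        rw [h4] at h5
        omega
      · exact Eventually.of_forall fun s h => hd h.1
  · exact h2.congr fun x hx => (e x hx).symm
  · show B.rel x y ↔ A.rel (if B.dom x then g x else 0) (if B.dom y then g y else 0)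
    rw [e x hx, e y hy, hr _ _ (h2.mapsTo hx) (h2.mapsTo hy), h1.2 hx, h1.2 hy]

theorem Iso.infinite_cls {A B : CES} {f : ℕ → ℕ} (h : Iso A B f) {x : ℕ} (hx : A.dom x) :
    (B.cls (f x)).Infinite ↔ (A.cls x).Infinite := by
  rw [← Set.encard_eq_top_iff, ← Set.encard_eq_top_iff, h.encard_cls hx]

theorem InfD2.pull {A B : CES} {f : ℕ → ℕ} (hf : LimC f) (h : Iso A B f) (hB : InfD2 B) :
    InfD2 A := by
  obtain ⟨u, cu, hu⟩ := hf
  obtain ⟨q, cq, hq⟩ := hB
  refine ⟨fun x s => q (u x s) s, cq.comp (cu.comp (c_fst c_id) (c_snd c_id)) (c_snd c_id),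
    fun x hx => ?_⟩
  filter_upwards [limIs_iff.1 (hu x), hq (f x) (h.1.mapsTo hx)] with s h1 h2
  rw [h1, h2, h.infinite_cls hx]

theorem InfD2.push {A B : CES} {f : ℕ → ℕ} (hf : LimC f) (h : Iso A B f) (hA : InfD2 A) :
    InfD2 B := by
  obtain ⟨g, hg, hi⟩ := h.symm_delta2 hf
  exact hA.pull hg hi

end Pool.Agent.H668.Eqv
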