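import Mathlib
import Pool.Agent.H668.Eq.D2

set_option autoImplicit false

/-! Sufficient conditions for `Δ⁰₂`-categoricity. -/

namespace Pool.Agent.H668.Eqv

open Classical Filter CES
open Pool.Agent.Helper941.IsoProb Pool.Agent.Helper941.Zeta

theorem p_finite {S : Set ℕ} (h : S.Finite) : ComputablePred fun a => a ∈ S := by
  induction S, h using Set.Finite.induction_on with
  | empty =>
    refine (p_lt (f := fun a : ℕ => a) (g := fun a => a) c_id c_id).of_eq fun a => ?_
    simp
  | @insert a S _ _ ih =>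
    exact (p_or (p_eq c_id (c_const a)) ih).of_eq fun b => (Set.mem_insert_iff).symm

theorem sz_zero_iff {A : CES} {x : ℕ} (hx : A.dom x) : A.sz x = 0 ↔ (A.cls x).Infinite := by
  constructor
  · intro h hf
    have := (Set.ncard_pos hf).2 (cls_nonempty hx)
    unfold CES.sz at h
    omega
  · exact fun h => h.ncard

theorem infD2_of_finite {B : CES} (h : {a | B.Rk 0 a}.Finite) : InfD2 B := by
  refine ⟨fun x _ => if B.rp x ∈ {a | B.Rk 0 a} then 1 else 0, ?_, fun x hx => ?_⟩
  · exact c_ite (computablePred_comp (p_finite h) (c_rp B (c_fst c_id))) (c_const 1) (c_const 0)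
  · refine Eventually.of_forall fun s => ?_
    have h1 : B.rp x ∈ {a | B.Rk 0 a} ↔ (B.cls x).Infinite := by
      rw [← sz_zero_iff hx, ← sz_rp hx]
      exact ⟨fun h => h.2, fun h => ⟨rp_rep hx, h⟩⟩
    rw [← h1]
    show (if B.rp x ∈ {a | B.Rk 0 a} then 1 else 0) = 1 ↔ _
    by_cases h2 : B.rp x ∈ {a | B.Rk 0 a}
    · rw [if_pos h2]
      exact ⟨fun _ => h2, fun _ => rfl⟩
    · rw [if_neg h2]
      exact ⟨fun h => absurd h (by norm_num), fun h => absurd h h2⟩

theorem count_unbdd {S : Set ℕ} (h : S.Infinite) (n : ℕ) :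
    ∀ᶠ s in atTop, n < Nat.count (fun y => y ∈ S) s := by
  filter_upwards [eventually_ge_atTop (Nat.nth (fun y => y ∈ S) (n+1))] with s hs
  have := Nat.count_monotone (fun y => y ∈ S) hs
  rw [Nat.count_nth_of_infinite (p := fun y => y ∈ S) h] at this
  omega

theorem limIs_count {S : Set ℕ} {k : ℕ} (h : LimIs (fun s => Nat.count (fun y => y ∈ S) s) k) :
    S.Finite ∧ S.ncard = k := by
  rw [limIs_iff] at h
  have hf : S.Finite := by
    by_contra hc
    obtain ⟨s, h1, h2⟩ := (h.and (count_unbdd hc k)).exists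
    omega
  obtain ⟨s, h1, h2⟩ := (h.and (count_eq_ncard hf)).exists
  exact ⟨hf, by rw [← h2, h1]⟩

theorem infD2_of_bounded {B : CES} (h : ABL fun k => (B.classes k).encard) :
    InfD2 B := by
  let g : ℕ → ℕ → ℕ := fun i s =>
    if B.Rep i then Nat.count (fun y => y ∈ B.cls i) s else s + 1
  have cg : Computable₂ g := c_ite (p_rep B (c_fst c_id)) (c_cnt B (c_fst c_id) (c_snd c_id))
    (c_succ (c_snd c_id))
  have mg : ∀ i, Monotone (g i) := by
    intro i s t hst
    show (if B.Rep i then Nat.count (fun y => y ∈ B.cls i) s else s + 1) ≤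
      (if B.Rep i then Nat.count (fun y => y ∈ B.cls i) t else t + 1)
    by_cases hi : B.Rep i
    · rw [if_pos hi, if_pos hi]
      exact Nat.count_monotone _ hst
    · rw [if_neg hi, if_neg hi]
      omega
  have g1 : ∀ i, B.Rep i → g i = fun s => Nat.count (fun y => y ∈ B.cls i) s := fun i hi => by
    funext s
    exact if_pos hi
  have lg : ∀ i k, LimIs (g i) k → B.Rep i ∧ (B.cls i).Finite ∧ (B.cls i).ncard = k := by
    intro i k hk
    by_cases hi : B.Rep i
    · rw [g1 i hi] at hk
      exact ⟨hi, limIs_count hk⟩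
    · exfalso
      rw [limIs_iff] at hk
      obtain ⟨s, h1, h2⟩ := (hk.and (ev_lt k)).exists
      have : g i s = s + 1 := if_neg hi
      omega
  obtain ⟨F, ⟨u, cu, hu⟩, hF⟩ := h g cg mg fun k => by
    by_cases hk : k = 0
    · have : {i | LimIs (g i) k} = ∅ := by
        ext i
        refine ⟨fun h => ?_, fun h => h.elim⟩
        obtain ⟨h1, h2, h3⟩ := lg i k h
        have := (Set.ncard_pos h2).2 (cls_nonempty h1.1)
        omega
      rw [this, Set.encard_empty]
      exact bot_le
    · show _ ≤ (B.classes k).encard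
      rw [classes_encard B hk]
      exact Set.encard_le_encard fun i hi => ⟨(lg i k hi).1, (lg i k hi).2.2⟩
  refine ⟨fun x s => if u (B.rp x) s < Nat.count (fun y => y ∈ B.cls x) s then 1 else 0, ?_,
    fun x hx => ?_⟩
  · exact c_ite (p_lt (cu.comp (c_rp B (c_fst c_id)) (c_snd c_id))
      (c_cnt B (c_fst c_id) (c_snd c_id))) (c_const 1) (c_const 0)
  · have hc : B.cls x = B.cls (B.rp x) := cls_eq hx (rp_mem hx).1 (rp_mem hx).2
    by_cases hi : (B.cls x).Infinite
    · filter_upwards [limIs_iff.1 (hu (B.rp x)), count_unbdd hi (F (B.rp x))] with s h1 h2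
      rw [h1, if_pos h2]
      exact ⟨fun _ => hi, fun _ => rfl⟩
    · have hf := Set.not_infinite.1 hi
      have hl : LimIs (g (B.rp x)) (B.cls x).ncard := by
        rw [g1 _ (rp_rep hx), limIs_iff, ← hc]
        exact count_eq_ncard hf
      have hb := hF _ _ hl
      filter_upwards [limIs_iff.1 (hu (B.rp x)), count_eq_ncard hf] with s h1 h2
      rw [h1, h2, if_neg (by omega)]
      exact ⟨fun h => absurd h (by norm_num), fun h => absurd h hi⟩

theorem classes_congr {A B : CES} (H : ∀ σ, {a | A.Rk σ a}.encard = {a | B.Rk σ a}.encard)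
    (k : ℕ) : (A.classes k).encard = (B.classes k).encard := by
  by_cases hk : k = 0
  · subst hk
    rw [classes_zero, classes_zero]
  · rw [classes_encard A hk, classes_encard B hk, H k]

theorem rk_zero_congr {A B : CES} (H : ∀ σ, {a | A.Rk σ a}.encard = {a | B.Rk σ a}.encard) :
    {a | A.Rk 0 a}.Finite ↔ {a | B.Rk 0 a}.Finite := by
  rw [← Set.encard_lt_top_iff, ← Set.encard_lt_top_iff, H 0]

theorem infD2_of_cond {A : CES}
    (h : A.infClasses.Finite ∨ ABL fun k => (A.classes k).encard) : InfD2 A := by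
  rcases h with h | h
  · exact infD2_of_finite ((infClasses_finite A).1 h)
  · exact infD2_of_bounded h

theorem categorical_of_cond {A : CES}
    (h : A.infClasses.Finite ∨ ABL fun k => (A.classes k).encard) :
    CatL A := by
  rintro B ⟨f, hf⟩
  have H := hf.card
  refine iso_of_infD2 (infD2_of_cond h) (infD2_of_cond ?_) H
  rcases h with h | h
  · left
    rw [infClasses_finite] at h ⊢
    exact (rk_zero_congr H).1 h
  · right
    have : (fun k => (B.classes k).encard) = fun k => (A.classes k).encard := by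
      funext k
      exact (classes_congr H k).symm
    rw [this]
    exact h

end Pool.Agent.H668.Eqv
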