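import Mathlib
import Pool.Agent.H668.Eq.Suf

set_option autoImplicit false

/-! Equivalence structures built from computable arrays. -/

namespace Pool.Agent.H668.Eqv

open Classical Filter CES
open Pool.Agent.Helper941.IsoProb Pool.Agent.Helper941.Zeta

/-- the structure whose `c`-th class has `sup_s r c s` elements -/
def SR (r : ℕ → ℕ → ℕ) (hr : Computable₂ r) : CES where
  dom x := x.unpair.2.unpair.1 < r x.unpair.1 x.unpair.2.unpair.2 ∧
    (x.unpair.2.unpair.2 = 0 ∨ r x.unpair.1 (x.unpair.2.unpair.2 - 1) ≤ x.unpair.2.unpair.1)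
  rel x y := x.unpair.1 = y.unpair.1
  cdom := by
    have h1 : Computable fun x : ℕ => x.unpair.1 := c_up1 c_id
    have h2 : Computable fun x : ℕ => x.unpair.2.unpair.1 := c_up1 (c_up2 c_id)
    have h3 : Computable fun x : ℕ => x.unpair.2.unpair.2 := c_up2 (c_up2 c_id)
    exact p_and (p_lt h2 (hr.comp h1 h3)) (p_or (p_eq h3 (c_const 0))
      (p_le (hr.comp h1 (c_sub h3 (c_const 1))) h2))
  crel := p_eq (c_up1 (c_fst c_id)) (c_up1 (c_snd c_id))
  refl := fun _ _ => rfl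
  symm := fun _ _ _ _ h => h.symm
  trans := fun _ _ _ _ _ _ h1 h2 => h1.trans h2

/-- the elements enumerated -/
def W (r : ℕ → ℕ → ℕ) (c : ℕ) : Set ℕ := {n | ∃ s, n < r c s}

section
variable {r : ℕ → ℕ → ℕ} {hr : Computable₂ r} (mono : ∀ c, Monotone (r c))

include mono

theorem sr_injOn (x : ℕ) : Set.InjOn (fun y : ℕ => y.unpair.2.unpair.1) ((SR r hr).cls x) := by
  rintro y ⟨hy, hxy⟩ z ⟨hz, hxz⟩ h
  have h1 : y.unpair.1 = z.unpair.1 := hxy.symm.trans hxz
  have h2 : y.unpair.2.unpair.1 = z.unpair.2.unpair.1 := h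
  obtain ⟨y1, y2⟩ := hy
  obtain ⟨z1, z2⟩ := hz
  have key : ∀ c n s s', n < r c s → (s' = 0 ∨ r c (s' - 1) ≤ n) → s' ≤ s := by
    intro c n s s' a1 a2
    by_contra hc
    rcases a2 with a2 | a2
    · omega
    · have := mono c (show s ≤ s' - 1 by omega)
      omega
  have h3 : y.unpair.2.unpair.2 = z.unpair.2.unpair.2 := by
    apply le_antisymm
    · exact key z.unpair.1 z.unpair.2.unpair.1 _ _ z1 (by rw [← h1, ← h2]; exact y2)
    · exact key y.unpair.1 y.unpair.2.unpair.1 _ _ y1 (by rw [h1, h2]; exact z2)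
  have h4 : y.unpair.2 = z.unpair.2 := by
    rw [← Nat.pair_unpair y.unpair.2, ← Nat.pair_unpair z.unpair.2, h2, h3]
  rw [← Nat.pair_unpair y, ← Nat.pair_unpair z, h1, h4]

omit mono in
theorem sr_dom_ex {c n : ℕ} (h : n ∈ W r c) : ∃ s, (SR r hr).dom (Nat.pair c (Nat.pair n s)) := by
  have h' : ∃ s, n < r c s := h
  refine ⟨Nat.find h', ?_⟩
  show (Nat.pair c (Nat.pair n (Nat.find h'))).unpair.2.unpair.1 < _ ∧ _
  simp only [Nat.unpair_pair]
  refine ⟨Nat.find_spec h', ?_⟩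
  by_cases h0 : Nat.find h' = 0
  · exact Or.inl h0
  · right
    exact not_lt.1 (Nat.find_min h' (show Nat.find h' - 1 < Nat.find h' by omega))

theorem sr_ncard (x : ℕ) : ((SR r hr).cls x).ncard = (W r x.unpair.1).ncard := by
  rw [← Set.InjOn.ncard_image (sr_injOn mono x)]
  congr 1
  ext n
  constructor
  · rintro ⟨y, ⟨hy, hxy⟩, rfl⟩
    have h : x.unpair.1 = y.unpair.1 := hxy
    refine ⟨y.unpair.2.unpair.2, ?_⟩
    rw [h]
    exact hy.1
  · intro h
    obtain ⟨s, hs⟩ := sr_dom_ex (hr := hr) h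
    refine ⟨_, ⟨hs, ?_⟩, ?_⟩
    · show x.unpair.1 = (Nat.pair _ _).unpair.1
      rw [Nat.unpair_pair]
    · simp only [Nat.unpair_pair]

omit mono in
theorem sr_dom0 (pos : ∀ c, 1 ≤ r c 0) (c : ℕ) :
    (SR r hr).dom (Nat.pair c (Nat.pair 0 0)) := by
  show (Nat.pair c (Nat.pair 0 0)).unpair.2.unpair.1 < _ ∧ _
  simp only [Nat.unpair_pair]
  exact ⟨pos c, Or.inl trivial⟩

theorem sr_rk (pos : ∀ c, 1 ≤ r c 0) (σ : ℕ) :
    {a | (SR r hr).Rk σ a}.encard = {c | (W r c).ncard = σ}.encard := by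
  have h : {c | (W r c).ncard = σ} =
      (fun a : ℕ => a.unpair.1) '' {a | (SR r hr).Rk σ a} := by
    ext c
    constructor
    · intro hc
      have hd := sr_dom0 (hr := hr) pos c
      have hrel : (Nat.pair c (Nat.pair 0 0)).unpair.1 =
        ((SR r hr).rp (Nat.pair c (Nat.pair 0 0))).unpair.1 := (rp_mem hd).2
      rw [Nat.unpair_pair] at hrel
      refine ⟨(SR r hr).rp (Nat.pair c (Nat.pair 0 0)), ⟨rp_rep hd, ?_⟩, hrel.symm⟩
      unfold CES.sz
      rw [sr_ncard mono, ← hrel]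
      exact hc
    · rintro ⟨a, ⟨ha, hs⟩, rfl⟩
      unfold CES.sz at hs
      rw [sr_ncard mono] at hs
      exact hs
  rw [h]
  refine (Set.InjOn.encard_image ?_).symm
  rintro a ⟨ha, _⟩ b ⟨hb, _⟩ hab
  have h1 : (SR r hr).rel a b := hab
  have h3 := (rp_eq_iff ha.1 hb.1).1 h1
  rwa [rp_of_rep ha, rp_of_rep hb] at h3

omit mono in
theorem w_lim {c k : ℕ} (mono : Monotone (r c)) (h : LimIs (r c) k) : W r c = {n | n < k} := by
  obtain ⟨s₀, hs⟩ := h
  ext n
  constructor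
  · rintro ⟨s, h1⟩
    have h2 := mono (le_max_left s s₀)
    rw [hs _ (le_max_right s s₀)] at h2
    exact lt_of_lt_of_le h1 h2
  · intro h1
    exact ⟨s₀, by rw [hs s₀ le_rfl]; exact h1⟩

omit mono in
theorem ncard_lt (k : ℕ) : {n : ℕ | n < k}.ncard = k := by
  have : {n : ℕ | n < k} = ((Finset.range k : Finset ℕ) : Set ℕ) := by
    ext n
    simp
  rw [this, Set.ncard_coe_finset, Finset.card_range]

omit mono in
theorem w_unbdd {c : ℕ} (mono : Monotone (r c)) (h : ∀ k, ¬ LimIs (r c) k) (m : ℕ) :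
    ∀ᶠ s in atTop, m < r c s := by
  by_contra hc
  have h1 : ∀ s, r c s ≤ m := by
    intro s
    by_contra hs
    apply hc
    filter_upwards [eventually_ge_atTop s] with t ht
    exact lt_of_lt_of_le (not_le.1 hs) (mono ht)
  -- a bounded monotone sequence is eventually constant
  have h2 : ∃ k, (∃ s, r c s = k) ∧ ∀ s, r c s ≤ k := by
    have hfin : (Set.range (r c)).Finite :=
      (Set.finite_le_nat m).subset (by rintro _ ⟨s, rfl⟩; exact h1 s)
    obtain ⟨k, ⟨s, hs⟩, hk⟩ := hfin.exists_maximal (Set.range_nonempty _)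
    refine ⟨k, ⟨s, hs⟩, fun t => ?_⟩
    by_contra hlt
    exact hlt (hk ⟨t, rfl⟩ (le_of_lt (not_le.1 hlt)))
  obtain ⟨k, ⟨s, hs⟩, hk⟩ := h2
  refine h k ⟨s, fun t ht => le_antisymm (hk t) ?_⟩
  rw [← hs]
  exact mono ht

omit mono in
theorem w_ncard {c : ℕ} (mono : Monotone (r c)) {k : ℕ} (hk : k ≠ 0) :
    (W r c).ncard = k ↔ LimIs (r c) k := by
  constructor
  · intro h
    have hf : (W r c).Finite := Set.finite_of_ncard_ne_zero (by rw [h]; exact hk)
    by_contra hc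
    have h1 : ∀ k', ¬ LimIs (r c) k' := by
      intro k' hk'
      have := w_lim mono hk'
      rw [this, ncard_lt] at h
      subst h
      exact hc hk'
    have h2 : W r c = Set.univ := by
      ext n
      refine ⟨fun _ => trivial, fun _ => ?_⟩
      obtain ⟨s, hs⟩ := (w_unbdd mono h1 n).exists
      exact ⟨s, hs⟩
    rw [h2] at hf
    exact Set.infinite_univ hf
  · intro h
    rw [w_lim mono h, ncard_lt]

omit mono in
theorem w_ncard_zero {c : ℕ} (mono : Monotone (r c)) (pos : 1 ≤ r c 0) :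
    (W r c).ncard = 0 ↔ ∀ k, ¬ LimIs (r c) k := by
  constructor
  · intro h k hk
    rw [w_lim mono hk, ncard_lt] at h
    subst h
    obtain ⟨s₀, hs⟩ := hk
    have := mono (Nat.zero_le s₀)
    rw [hs s₀ le_rfl] at this
    omega
  · intro h
    have h2 : W r c = Set.univ := by
      ext n
      refine ⟨fun _ => trivial, fun _ => ?_⟩
      obtain ⟨s, hs⟩ := (w_unbdd mono h n).exists
      exact ⟨s, hs⟩
    rw [h2]
    exact Set.infinite_univ.ncard

theorem sr_inf (pos : ∀ c, 1 ≤ r c 0) {x : ℕ} (hx : (SR r hr).dom x) :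
    ((SR r hr).cls x).Infinite ↔ ∀ k, ¬ LimIs (r x.unpair.1) k := by
  rw [← sz_zero_iff hx, ← w_ncard_zero (mono _) (pos _)]
  unfold CES.sz
  rw [sr_ncard mono]

end

end Pool.Agent.H668.Eqv
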