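import Mathlib
import Pool.Agent.H668.Eq.Cop

set_option autoImplicit false

/-! Structures in which a class stays finite as long as a computable condition holds. -/

namespace Pool.Agent.H668.Eqv

open Classical Filter CES
open Pool.Agent.Helper941.IsoProb Pool.Agent.Helper941.Zeta

structure RunData where
  w : ℕ → ℕ → ℕ
  ok : ℕ → ℕ → Prop
  cw : Computable₂ w
  cok : ComputablePred fun p : ℕ × ℕ => ok p.1 p.2
  mono : ∀ n, Monotone (w n)
  pos : ∀ n s, ok n s → 1 ≤ w n s
  inf : {n | ¬ ok n 0}.Infinite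

namespace RunData

variable (D : RunData)

/-- `c.2` starts a run -/
def start (c : ℕ) : Prop :=
  D.ok c.unpair.1 c.unpair.2 ∧ (c.unpair.2 = 0 ∨ ¬ D.ok c.unpair.1 (c.unpair.2 - 1))

/-- `c.2` starts a run which lasts up to `s` -/
def good (c s : ℕ) : Prop :=
  D.start c ∧ ∀ s' < s + 1, c.unpair.2 ≤ s' → D.ok c.unpair.1 s'

/-- `c.2` starts an infinite run -/
def Full (c : ℕ) : Prop :=
  D.start c ∧ ∀ s, c.unpair.2 ≤ s → D.ok c.unpair.1 s

noncomputable def r (c s : ℕ) : ℕ :=
  if D.good c s then D.w c.unpair.1 (max s c.unpair.2)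
  else D.w c.unpair.1 (max s c.unpair.2) + (s + 1)

variable {D}

theorem p_ok {α : Type} [Primcodable α] {f g : α → ℕ} (hf : Computable f) (hg : Computable g) :
    ComputablePred fun a => D.ok (f a) (g a) :=
  computablePred_comp (P := fun p : ℕ × ℕ => D.ok p.1 p.2) D.cok (c_pair hf hg)

theorem p_good {α : Type} [Primcodable α] {f g : α → ℕ} (hf : Computable f)
    (hg : Computable g) : ComputablePred fun a => D.good (f a) (g a) := by
  refine p_and (p_and (p_ok (c_up1 hf) (c_up2 hf)) (p_or (p_eq (c_up2 hf) (c_const 0))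
    (p_not (p_ok (c_up1 hf) (c_sub (c_up2 hf) (c_const 1)))))) ?_
  have hf' : Computable fun p : α × ℕ => f p.1 := hf.comp (c_fst c_id)
  exact p_ball (f := fun a => g a + 1) (P := fun a s' => (f a).unpair.2 ≤ s' →
    D.ok (f a).unpair.1 s') (c_succ hg) (p_imp (p_le (c_up2 hf') (c_snd c_id))
    (p_ok (c_up1 hf') (c_snd c_id)))

variable (D)

theorem c_r : Computable₂ D.r := by
  have h1 : Computable fun p : ℕ × ℕ => p.1 := c_fst c_id
  have h2 : Computable fun p : ℕ × ℕ => p.2 := c_snd c_id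
  have hw : Computable fun p : ℕ × ℕ => D.w p.1.unpair.1 (max p.2 p.1.unpair.2) :=
    D.cw.comp (c_up1 h1) (c_max h2 (c_up2 h1))
  exact c_ite (p_good h1 h2) hw (c_add hw (c_succ h2))

variable {D}

theorem good_anti {c s t : ℕ} (h : s ≤ t) (hg : D.good c t) : D.good c s :=
  ⟨hg.1, fun s' h1 h2 => hg.2 s' (by omega) h2⟩

theorem r_mono (c : ℕ) : Monotone (D.r c) := by
  intro s t hst
  have hw : D.w c.unpair.1 (max s c.unpair.2) ≤ D.w c.unpair.1 (max t c.unpair.2) :=
    D.mono _ (max_le_max hst le_rfl)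
  unfold r
  by_cases h1 : D.good c t
  · rw [if_pos h1, if_pos (good_anti hst h1)]
    exact hw
  · rw [if_neg h1]
    by_cases h2 : D.good c s
    · rw [if_pos h2]
      omega
    · rw [if_neg h2]
      omega

theorem r_pos (c : ℕ) : 1 ≤ D.r c 0 := by
  unfold r
  by_cases h1 : D.good c 0
  · rw [if_pos h1]
    have := D.pos _ _ h1.1.1
    rwa [max_eq_right (Nat.zero_le _)]
  · rw [if_neg h1]
    omega

theorem r_lim {c k : ℕ} : LimIs (D.r c) k ↔ D.Full c ∧ LimIs (D.w c.unpair.1) k := by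
  constructor
  · intro h
    rw [limIs_iff] at h
    have hF : D.Full c := by
      have h2 : ∀ s, D.good c s := by
        intro s
        by_contra hc
        obtain ⟨t, h3, h4, h5⟩ := (h.and ((eventually_ge_atTop s).and (ev_lt k))).exists
        have h6 : ¬ D.good c t := fun h => hc (good_anti h4 h)
        unfold r at h3
        rw [if_neg h6] at h3
        omega
      exact ⟨(h2 0).1, fun s hs => (h2 s).2 s (by omega) hs⟩
    refine ⟨hF, ?_⟩
    rw [limIs_iff]
    filter_upwards [h, eventually_ge_atTop c.unpair.2] with s h1 h2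
    unfold r at h1
    rwa [if_pos ⟨hF.1, fun s' _ h3 => hF.2 s' h3⟩, max_eq_left h2] at h1
  · rintro ⟨hF, h⟩
    rw [limIs_iff] at h ⊢
    filter_upwards [h, eventually_ge_atTop c.unpair.2] with s h1 h2
    unfold r
    rwa [if_pos ⟨hF.1, fun s' _ h3 => hF.2 s' h3⟩, max_eq_left h2]

/-- infinite runs are determined by the index -/
theorem full_ex {n : ℕ} (h : ∀ᶠ s in atTop, D.ok n s) : ∃ t, D.Full (Nat.pair n t) := by
  have h' : ∃ t, ∀ s, t ≤ s → D.ok n s := eventually_atTop.1 h
  refine ⟨Nat.find h', ?_⟩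
  unfold Full start
  rw [Nat.unpair_pair]
  refine ⟨⟨Nat.find_spec h' _ le_rfl, ?_⟩, Nat.find_spec h'⟩
  by_cases h0 : Nat.find h' = 0
  · exact Or.inl h0
  · right
    intro hc
    refine Nat.find_min h' (show Nat.find h' - 1 < Nat.find h' by omega) fun s hs => ?_
    by_cases h1 : s = Nat.find h' - 1
    · show D.ok n s
      rw [h1]
      exact hc
    · exact Nat.find_spec h' s (by omega)

theorem full_inj {c c' : ℕ} (h : D.Full c) (h' : D.Full c') (e : c.unpair.1 = c'.unpair.1) :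
    c = c' := by
  have key : ∀ c c' : ℕ, D.Full c → D.Full c' → c.unpair.1 = c'.unpair.1 →
      c'.unpair.2 ≤ c.unpair.2 := by
    intro c c' h h' e
    by_contra hc
    rcases h'.1.2 with h0 | h0
    · omega
    · apply h0
      rw [← e]
      exact h.2 _ (by omega)
  have h2 : c.unpair.2 = c'.unpair.2 := le_antisymm (key c' c h' h e.symm) (key c c' h h' e)
  rw [← Nat.pair_unpair c, ← Nat.pair_unpair c', e, h2]

variable (D)

/-- the structure -/
noncomputable def str : CES := SR D.r D.c_r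

variable {D}

theorem rk_pos {σ : ℕ} (hσ : σ ≠ 0) : {a | D.str.Rk σ a}.encard =
    {n | (∀ᶠ s in atTop, D.ok n s) ∧ LimIs (D.w n) σ}.encard := by
  unfold str
  rw [sr_rk r_mono r_pos]
  have h1 : {c | (W D.r c).ncard = σ} = {c | D.Full c ∧ LimIs (D.w c.unpair.1) σ} := by
    ext c
    show (W D.r c).ncard = σ ↔ _
    rw [w_ncard (r_mono c) hσ, r_lim]
    rfl
  have h2 : {n | (∀ᶠ s in atTop, D.ok n s) ∧ LimIs (D.w n) σ} =
      (fun c : ℕ => c.unpair.1) '' {c | D.Full c ∧ LimIs (D.w c.unpair.1) σ} := by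
    ext n
    constructor
    · rintro ⟨h3, h4⟩
      obtain ⟨t, ht⟩ := full_ex h3
      refine ⟨Nat.pair n t, ⟨ht, ?_⟩, ?_⟩
      · rw [Nat.unpair_pair]
        exact h4
      · show (Nat.pair n t).unpair.1 = n
        rw [Nat.unpair_pair]
    · rintro ⟨c, ⟨h3, h4⟩, rfl⟩
      refine ⟨?_, h4⟩
      filter_upwards [eventually_ge_atTop c.unpair.2] with s hs
      exact h3.2 s hs
  rw [h1, h2]
  refine (Set.InjOn.encard_image ?_).symm
  rintro c ⟨h, _⟩ c' ⟨h', _⟩ e
  exact full_inj h h' e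

theorem rk_zero : {a | D.str.Rk 0 a}.encard = ⊤ := by
  unfold str
  rw [sr_rk r_mono r_pos, Set.encard_eq_top_iff]
  have h : (fun n => Nat.pair n 0) '' {n | ¬ D.ok n 0} ⊆ {c | (W D.r c).ncard = 0} := by
    rintro _ ⟨n, hn, rfl⟩
    show (W D.r (Nat.pair n 0)).ncard = 0
    rw [w_ncard_zero (r_mono _) (r_pos _)]
    intro k hk
    rw [r_lim] at hk
    have := hk.1.1.1
    rw [Nat.unpair_pair] at this
    exact hn this
  refine Set.Infinite.mono h (D.inf.image ?_)
  intro a _ b _ hab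
  exact (Nat.pair_eq_pair.1 hab).1

theorem dom0 (c : ℕ) : D.str.dom (Nat.pair c (Nat.pair 0 0)) := sr_dom0 r_pos c

theorem infinite_iff {x : ℕ} (hx : D.str.dom x) : (D.str.cls x).Infinite ↔
    ∀ k, ¬ (D.Full x.unpair.1 ∧ LimIs (D.w x.unpair.1.unpair.1) k) := by
  unfold str at hx ⊢
  rw [sr_inf r_mono r_pos hx]
  constructor
  · intro h k hk
    exact h k (r_lim.2 hk)
  · intro h k hk
    exact h k (r_lim.1 hk)

/-- if all the `w n` converge then infinity is `Δ⁰₂` -/
theorem infD2_str (h : ∀ n, ∃ k, LimIs (D.w n) k) : InfD2 D.str := by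
  refine ⟨fun x s => if D.good x.unpair.1 s then 0 else 1, ?_, fun x hx => ?_⟩
  · exact c_ite (p_good (c_up1 (c_fst c_id)) (c_snd c_id)) (c_const 0) (c_const 1)
  · obtain ⟨k, hk⟩ := h x.unpair.1.unpair.1
    have h1 : (D.str.cls x).Infinite ↔ ¬ D.Full x.unpair.1 := by
      rw [infinite_iff hx]
      exact ⟨fun h h2 => h k ⟨h2, hk⟩, fun h k h2 => h h2.1⟩
    by_cases hF : D.Full x.unpair.1
    · refine Eventually.of_forall fun s => ?_
      have h2 : D.good x.unpair.1 s := ⟨hF.1, fun s' _ h3 => hF.2 s' h3⟩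
      show (if D.good x.unpair.1 s then 0 else 1) = 1 ↔ _
      rw [if_pos h2, h1]
      exact ⟨fun h => absurd h (by norm_num), fun h => absurd hF h⟩
    · have h2 : ∃ s, ¬ D.good x.unpair.1 s := by
        by_contra hc
        push Not at hc
        exact hF ⟨(hc 0).1, fun s hs => (hc s).2 s (by omega) hs⟩
      obtain ⟨s₀, hs₀⟩ := h2
      filter_upwards [eventually_ge_atTop s₀] with s hs
      rw [if_neg (fun h => hs₀ (good_anti hs h)), h1]
      exact ⟨fun _ => hF, fun _ => rfl⟩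

end RunData

end Pool.Agent.H668.Eqv
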