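import Mathlib
import Pool.Agent.H668.Eq.Runs

set_option autoImplicit false

/-! Necessary conditions for `Δ⁰₂`-categoricity. -/

namespace Pool.Agent.H668.Eqv

open Classical Filter CES
open Pool.Agent.Helper941.IsoProb Pool.Agent.Helper941.Zeta

/-- number of elements of the class below `s` -/
noncomputable def zc (A : CES) (b s : ℕ) : ℕ := Nat.count (fun y => y ∈ A.cls b) s

theorem c_zc (A : CES) {α : Type} [Primcodable α] {f g : α → ℕ} (hf : Computable f)
    (hg : Computable g) : Computable fun a => zc A (f a) (g a) := c_cnt A hf hg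

theorem zc_mono (A : CES) (b : ℕ) : Monotone (zc A b) := Nat.count_monotone _

theorem zc_lim {A : CES} {b k : ℕ} : LimIs (zc A b) k ↔ (A.cls b).Finite ∧ (A.cls b).ncard = k := by
  constructor
  · exact fun h => limIs_count h
  · rintro ⟨h1, h2⟩
    rw [limIs_iff, ← h2]
    exact count_eq_ncard h1

theorem zc_lim_iff {A : CES} {b k : ℕ} (hk : k ≠ 0) : LimIs (zc A b) k ↔ A.sz b = k := by
  rw [zc_lim]
  constructor
  · exact fun h => h.2
  · intro h
    exact ⟨Set.finite_of_ncard_ne_zero (by unfold CES.sz at h; rw [h]; exact hk), h⟩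

theorem count_congr {p q : ℕ → Prop} [DecidablePred p] [DecidablePred q] {n : ℕ}
    (h : ∀ i < n, (p i ↔ q i)) :
    Nat.count p n = Nat.count q n := by
  rw [Nat.count_eq_card_filter_range, Nat.count_eq_card_filter_range]
  congr 1
  apply Finset.filter_congr
  intro i hi
  exact h i (Finset.mem_range.1 hi)

theorem ev_lim_iff {u : ℕ → ℕ} (hu : Monotone u) (k : ℕ) :
    ∀ᶠ s in atTop, (u s = k ↔ LimIs u k) := by
  by_cases h : LimIs u k
  · filter_upwards [limIs_iff.1 h] with s hs
    exact ⟨fun _ => h, fun _ => hs⟩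
  · by_cases h' : ∃ k', LimIs u k'
    · obtain ⟨k', hk'⟩ := h'
      have hne : k' ≠ k := fun e => h (e ▸ hk')
      filter_upwards [limIs_iff.1 hk'] with s hs
      rw [hs]
      exact ⟨fun h => absurd h hne, fun h1 => absurd h1 h⟩
    · push Not at h'
      filter_upwards [w_unbdd (r := fun _ => u) (c := 0) hu h' k] with s hs
      exact ⟨fun e => by omega, fun h1 => absurd h1 h⟩

/-! ### the nice copy -/

noncomputable def niceD (A : CES) : RunData where
  w n _ := n.unpair.2 + 1
  ok n s := A.Rep n.unpair.1 ∧ zc A n.unpair.1 s = n.unpair.2 + 1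
  cw := c_succ (c_up2 (c_fst c_id))
  cok := p_and (p_rep A (c_up1 (c_fst c_id)))
    (p_eq (c_zc A (c_up1 (c_fst c_id)) (c_snd c_id)) (c_succ (c_up2 (c_fst c_id))))
  mono := fun _ _ _ _ => le_rfl
  pos := fun _ _ _ => Nat.succ_le_succ (Nat.zero_le _)
  inf := by
    have : {n : ℕ | ¬ (A.Rep n.unpair.1 ∧ zc A n.unpair.1 0 = n.unpair.2 + 1)} = Set.univ := by
      ext n
      refine ⟨fun _ => trivial, fun _ h => ?_⟩
      have h2 := h.2
      unfold zc at h2
      rw [Nat.count_zero] at h2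
      omega
    rw [this]
    exact Set.infinite_univ

theorem nice_rk (A : CES) {σ : ℕ} (hσ : σ ≠ 0) :
    {a | (niceD A).str.Rk σ a}.encard = {a | A.Rk σ a}.encard := by
  rw [RunData.rk_pos hσ]
  have h : {n | (∀ᶠ s in atTop, (niceD A).ok n s) ∧ LimIs ((niceD A).w n) σ} =
      (fun b => Nat.pair b (σ - 1)) '' {a | A.Rk σ a} := by
    ext n
    constructor
    · rintro ⟨h1, h2⟩
      have h3 : n.unpair.2 + 1 = σ := by
        obtain ⟨s₀, hs⟩ := h2
        exact hs s₀ le_rfl
      obtain ⟨s, hr, _⟩ := h1.exists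
      have hl : LimIs (zc A n.unpair.1) σ := by
        rw [limIs_iff]
        filter_upwards [h1] with s hs
        rw [hs.2, h3]
      refine ⟨n.unpair.1, ⟨hr, (zc_lim_iff hσ).1 hl⟩, ?_⟩
      show Nat.pair n.unpair.1 (σ - 1) = n
      rw [← h3, Nat.add_sub_cancel, Nat.pair_unpair]
    · rintro ⟨b, ⟨hb, hs⟩, rfl⟩
      have e : σ - 1 + 1 = σ := by omega
      refine ⟨?_, ?_⟩
      · filter_upwards [limIs_iff.1 ((zc_lim_iff hσ).2 hs)] with s h1
        show A.Rep (Nat.pair b (σ - 1)).unpair.1 ∧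
          zc A (Nat.pair b (σ - 1)).unpair.1 s = (Nat.pair b (σ - 1)).unpair.2 + 1
        rw [Nat.unpair_pair]
        exact ⟨hb, by rw [h1]; exact e.symm⟩
      · refine ⟨0, fun s _ => ?_⟩
        show (Nat.pair b (σ - 1)).unpair.2 + 1 = σ
        rw [Nat.unpair_pair]
        exact e
  rw [h]
  refine Set.InjOn.encard_image ?_
  intro a _ b _ hab
  exact (Nat.pair_eq_pair.1 hab).1

theorem nice_inf (A : CES) : InfD2 (niceD A).str :=
  RunData.infD2_str fun n => ⟨n.unpair.2 + 1, 0, fun _ _ => rfl⟩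

theorem rk_top {A : CES} (h : ¬ A.infClasses.Finite) : {a | A.Rk 0 a}.encard = ⊤ := by
  rw [infClasses_finite] at h
  exact Set.Infinite.encard_eq h

/-- infinity is `Δ⁰₂` in a categorical structure -/
theorem infD2_of_categorical {A : CES} (hA : CatL A) (h : ¬ A.infClasses.Finite) :
    InfD2 A := by
  have H : ∀ σ, {a | A.Rk σ a}.encard = {a | (niceD A).str.Rk σ a}.encard := by
    intro σ
    by_cases hσ : σ = 0
    · subst hσ
      rw [rk_top h, RunData.rk_zero]
    · rw [nice_rk A hσ]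
  obtain ⟨f, hf, hi⟩ := hA _ (iso_of_card H)
  exact (nice_inf A).pull hf hi

/-! ### the copy following an array -/

section
variable (A : CES) (g : ℕ → ℕ → ℕ)

noncomputable def arrD (cg : Computable₂ g) (mg : ∀ i, Monotone (g i)) : RunData where
  w n s := if n.unpair.1 = 0 then g n.unpair.2 s else zc A n.unpair.2 s
  ok n s := (n.unpair.1 = 0 ∧ n.unpair.2 < g n.unpair.2 s) ∨
    (n.unpair.1 = 1 ∧ A.Rep n.unpair.2 ∧ 1 ≤ zc A n.unpair.2 s ∧
      Nat.count (fun j => g j s = zc A n.unpair.2 s) (zc A n.unpair.2 s) ≤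
        Nat.count (fun b => A.Rep b ∧ zc A b s = zc A n.unpair.2 s) n.unpair.2)
  cw := c_ite (p_eq (c_up1 (c_fst c_id)) (c_const 0)) (cg.comp (c_up2 (c_fst c_id)) (c_snd c_id))
    (c_zc A (c_up2 (c_fst c_id)) (c_snd c_id))
  cok := by
    have h1 : Computable fun p : ℕ × ℕ => p.1.unpair.1 := c_up1 (c_fst c_id)
    have h2 : Computable fun p : ℕ × ℕ => p.1.unpair.2 := c_up2 (c_fst c_id)
    have h3 : Computable fun p : ℕ × ℕ => zc A p.1.unpair.2 p.2 := c_zc A h2 (c_snd c_id)
    have h3' : Computable fun p : (ℕ × ℕ) × ℕ => zc A p.1.1.unpair.2 p.1.2 :=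
      h3.comp (c_fst c_id)
    refine p_or (p_and (p_eq h1 (c_const 0)) (p_lt h2 (cg.comp h2 (c_snd c_id))))
      (p_and (p_eq h1 (c_const 1)) (p_and (p_rep A h2) (p_and (p_le (c_const 1) h3) ?_)))
    refine p_le (c_count h3 ?_) (c_count h2 ?_)
    · exact p_eq (cg.comp (c_snd c_id) (c_snd (c_fst c_id))) h3'
    · exact p_and (p_rep A (c_snd c_id)) (p_eq (c_zc A (c_snd c_id) (c_snd (c_fst c_id))) h3')
  mono := by
    intro n s t hst
    show (if n.unpair.1 = 0 then g n.unpair.2 s else zc A n.unpair.2 s) ≤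
      (if n.unpair.1 = 0 then g n.unpair.2 t else zc A n.unpair.2 t)
    by_cases h : n.unpair.1 = 0
    · rw [if_pos h, if_pos h]
      exact mg _ hst
    · rw [if_neg h, if_neg h]
      exact zc_mono A _ hst
  pos := by
    intro n s h
    show 1 ≤ (if n.unpair.1 = 0 then g n.unpair.2 s else zc A n.unpair.2 s)
    rcases h with ⟨h1, h2⟩ | ⟨h1, h2, h3, h4⟩
    · rw [if_pos h1]
      omega
    · rw [if_neg (by omega)]
      exact h3
  inf := by
    have h : Set.range (fun j => Nat.pair (j + 2) 0) ⊆ {n : ℕ |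
        ¬ ((n.unpair.1 = 0 ∧ n.unpair.2 < g n.unpair.2 0) ∨
    (n.unpair.1 = 1 ∧ A.Rep n.unpair.2 ∧ 1 ≤ zc A n.unpair.2 0 ∧
      Nat.count (fun j => g j 0 = zc A n.unpair.2 0) (zc A n.unpair.2 0) ≤
        Nat.count (fun b => A.Rep b ∧ zc A b 0 = zc A n.unpair.2 0) n.unpair.2))} := by
      rintro _ ⟨j, rfl⟩ h
      rcases h with h | h
      · have := h.1
        rw [Nat.unpair_pair] at this
        simp at this
      · have := h.1
        rw [Nat.unpair_pair] at this
        simp at this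
    refine Set.Infinite.mono h (Set.infinite_range_of_injective ?_)
    intro a b hab
    have := (Nat.pair_eq_pair.1 hab).1
    omega

variable {A g} {cg : Computable₂ g} {mg : ∀ i, Monotone (g i)}

theorem arr_ok0 {i s : ℕ} : (arrD A g cg mg).ok (Nat.pair 0 i) s ↔ i < g i s := by
  show (((Nat.pair 0 i).unpair.1 = 0 ∧ _) ∨ _) ↔ _
  rw [Nat.unpair_pair]
  constructor
  · rintro (h | h)
    · exact h.2
    · exact absurd h.1 (by norm_num)
  · exact fun h => Or.inl ⟨rfl, h⟩

theorem arr_w0 (i : ℕ) : (arrD A g cg mg).w (Nat.pair 0 i) = g i := by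
  funext s
  show (if (Nat.pair 0 i).unpair.1 = 0 then g (Nat.pair 0 i).unpair.2 s else _) = _
  rw [Nat.unpair_pair]
  exact if_pos rfl

theorem arr_ok1 {b s : ℕ} : (arrD A g cg mg).ok (Nat.pair 1 b) s ↔
    A.Rep b ∧ 1 ≤ zc A b s ∧ Nat.count (fun j => g j s = zc A b s) (zc A b s) ≤
        Nat.count (fun b' => A.Rep b' ∧ zc A b' s = zc A b s) b := by
  show (((Nat.pair 1 b).unpair.1 = 0 ∧ _) ∨ _) ↔ _
  rw [Nat.unpair_pair]
  constructor
  · rintro (h | h)
    · exact absurd h.1 (by norm_num)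
    · exact h.2
  · exact fun h => Or.inr ⟨rfl, h⟩

theorem arr_w1 (b : ℕ) : (arrD A g cg mg).w (Nat.pair 1 b) = zc A b := by
  funext s
  show (if (Nat.pair 1 b).unpair.1 = 0 then _ else zc A (Nat.pair 1 b).unpair.2 s) = _
  rw [Nat.unpair_pair]
  exact if_neg (by norm_num)

theorem arr_tag {n s : ℕ} (h : (arrD A g cg mg).ok n s) :
    n.unpair.1 = 0 ∨ n.unpair.1 = 1 := by
  rcases h with h | h
  · exact Or.inl h.1
  · exact Or.inr h.1

theorem arr_ev (mg : ∀ i, Monotone (g i)) {b k : ℕ} (hk : k ≠ 0) (hb : A.Rk k b) :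
    ∀ᶠ s in atTop,
    ((arrD A g cg mg).ok (Nat.pair 1 b) s ↔
      Nat.count (fun j => LimIs (g j) k) k ≤ Nat.count (A.Rk k) b) := by
  have h1 := limIs_iff.1 ((zc_lim_iff hk).2 hb.2)
  have h2 : ∀ᶠ s in atTop, ∀ j < k, (g j s = k ↔ LimIs (g j) k) :=
    ev_all_lt _ fun j _ => ev_lim_iff (mg j) k
  have h3 : ∀ᶠ s in atTop, ∀ b' < b, (zc A b' s = k ↔ LimIs (zc A b') k) :=
    ev_all_lt _ fun j _ => ev_lim_iff (zc_mono A j) k
  filter_upwards [h1, h2, h3] with s e1 e2 e3
  rw [arr_ok1, e1, count_congr e2]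
  have e4 : Nat.count (fun b' => A.Rep b' ∧ zc A b' s = k) b = Nat.count (A.Rk k) b := by
    refine count_congr fun i hi => ?_
    rw [e3 i hi, zc_lim_iff hk]
    rfl
  rw [e4]
  constructor
  · exact fun h => h.2.2
  · exact fun h => ⟨hb.1, by omega, h⟩

theorem encard_count_lt {P : ℕ → Prop} {m : ℕ} (h : (m : ℕ∞) ≤ {n | P n}.encard) :
    {n | P n ∧ Nat.count P n < m}.encard = m := by
  have e : {j : ℕ | j < m} = (fun n => Nat.count P n) '' {n | P n ∧ Nat.count P n < m} := by
    ext j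
    constructor
    · intro hj
      have hj' : j < m := hj
      by_cases hf : {n | P n}.Finite
      · have hlt : j < hf.toFinset.card := by
          have e1 := hf.encard_eq_coe_toFinset_card
          rw [e1] at h
          have : m ≤ hf.toFinset.card := by exact_mod_cast h
          omega
        have hc : Nat.count P (Nat.nth P j) = j := Nat.count_nth fun _ => hlt
        refine ⟨Nat.nth P j, ⟨Nat.nth_mem_of_lt_card hf hlt, ?_⟩, hc⟩
        rw [hc]
        exact hj'
      · have hc : Nat.count P (Nat.nth P j) = j := Nat.count_nth_of_infinite hf _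
        refine ⟨Nat.nth P j, ⟨Nat.nth_mem_of_infinite hf _, ?_⟩, hc⟩
        rw [hc]
        exact hj'
    · rintro ⟨n, ⟨_, h2⟩, rfl⟩
      exact h2
  have h3 : {j : ℕ | j < m}.encard = m := by
    have : {n : ℕ | n < m} = ((Finset.range m : Finset ℕ) : Set ℕ) := by
      ext n
      simp
    rw [this, Set.encard_coe_eq_coe_finsetCard, Finset.card_range]
  rw [← h3, e]
  refine (Set.InjOn.encard_image ?_).symm
  rintro a ⟨ha, _⟩ b ⟨hb, _⟩ hab
  exact Nat.count_injective ha hb hab

theorem encard_count_ge {P : ℕ → Prop} {m : ℕ} (h : (m : ℕ∞) ≤ {n | P n}.encard) :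
    (m : ℕ∞) + {n | P n ∧ m ≤ Nat.count P n}.encard = {n | P n}.encard := by
  rw [← encard_count_lt h, ← Set.encard_union_eq]
  · congr 1
    ext n
    constructor
    · rintro (h | h)
      · exact h.1
      · exact h.1
    · intro hn
      rcases Nat.lt_or_ge (Nat.count P n) m with h | h
      · exact Or.inl ⟨hn, h⟩
      · exact Or.inr ⟨hn, h⟩
  · rw [Set.disjoint_left]
    rintro n ⟨_, h1⟩ ⟨_, h2⟩
    omega

theorem encard_below {P : ℕ → Prop} (k : ℕ) :
    {i | i < k ∧ P i}.encard = (Nat.count P k : ℕ∞) := by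
  have : {i | i < k ∧ P i} = (((Finset.range k).filter P : Finset ℕ) : Set ℕ) := by
    ext n
    simp
  rw [this, Set.encard_coe_eq_coe_finsetCard, ← Nat.count_eq_card_filter_range]

theorem arr_rk (hN : ∀ k, {i | LimIs (g i) k}.encard ≤ (A.classes k).encard) {k : ℕ}
    (hk : k ≠ 0) : {a | (arrD A g cg mg).str.Rk k a}.encard = {a | A.Rk k a}.encard := by
  rw [RunData.rk_pos hk]
  have hM : ((Nat.count (fun j => LimIs (g j) k) k : ℕ) : ℕ∞) ≤ {a | A.Rk k a}.encard := by
    rw [← encard_below, ← classes_encard A hk]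
    exact (Set.encard_le_encard fun i hi => hi.2).trans (hN k)
  have h : {n | (∀ᶠ s in atTop, (arrD A g cg mg).ok n s) ∧ LimIs ((arrD A g cg mg).w n) k} =
      (Nat.pair 0) '' {i | i < k ∧ LimIs (g i) k} ∪
      (Nat.pair 1) '' {b | A.Rk k b ∧ Nat.count (fun j => LimIs (g j) k) k ≤
        Nat.count (A.Rk k) b} := by
    ext n
    constructor
    · rintro ⟨h1, h2⟩
      obtain ⟨s₁, hs₁⟩ := h1.exists
      have hn := Nat.pair_unpair n
      rcases arr_tag hs₁ with ht | ht
      · rw [ht] at hn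
        left
        rw [← hn] at h1 h2
        rw [arr_w0] at h2
        refine ⟨n.unpair.2, ⟨?_, h2⟩, hn⟩
        obtain ⟨s, h3, h4⟩ := (h1.and (limIs_iff.1 h2)).exists
        rw [arr_ok0, h4] at h3
        exact h3
      · rw [ht] at hn
        right
        rw [← hn] at h1 h2
        rw [arr_w1] at h2
        obtain ⟨s, h3⟩ := h1.exists
        rw [arr_ok1] at h3
        have hr : A.Rk k n.unpair.2 := ⟨h3.1, (zc_lim_iff hk).1 h2⟩
        refine ⟨n.unpair.2, ⟨hr, ?_⟩, hn⟩
        obtain ⟨s, h4, h5⟩ := (h1.and (arr_ev (cg := cg) mg hk hr)).exists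
        exact h5.1 h4
    · rintro (⟨i, ⟨h1, h2⟩, rfl⟩ | ⟨b, ⟨h1, h2⟩, rfl⟩)
      · refine ⟨?_, by rw [arr_w0]; exact h2⟩
        filter_upwards [limIs_iff.1 h2] with s hs
        rw [arr_ok0, hs]
        exact h1
      · refine ⟨?_, by rw [arr_w1]; exact (zc_lim_iff hk).2 h1.2⟩
        filter_upwards [arr_ev (cg := cg) mg hk h1] with s hs
        exact hs.2 h2
  have hinj : ∀ t, Function.Injective (Nat.pair t) := fun t a b hab => (Nat.pair_eq_pair.1 hab).2
  rw [h, Set.encard_union_eq, (hinj 0).injOn.encard_image, (hinj 1).injOn.encard_image,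
    encard_below]
  · exact encard_count_ge hM
  · rw [Set.disjoint_left]
    rintro _ ⟨a, _, rfl⟩ ⟨b, _, hb⟩
    have := (Nat.pair_eq_pair.1 hb).1
    omega

end

theorem bounded_of_categorical {A : CES} (hA : CatL A) (h : ¬ A.infClasses.Finite) :
    ABL fun k => (A.classes k).encard := by
  intro g cg mg hN
  let D := arrD A g cg mg
  have H : ∀ σ, {a | A.Rk σ a}.encard = {a | D.str.Rk σ a}.encard := by
    intro σ
    by_cases hσ : σ = 0
    · subst hσ
      rw [rk_top h, RunData.rk_zero]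
    · rw [arr_rk hN hσ]
  obtain ⟨f, hf, hi⟩ := hA _ (iso_of_card H)
  obtain ⟨q, cq, hq⟩ := (infD2_of_categorical hA h).push hf hi
  -- first stage at which the value is large
  let T : ℕ → ℕ → ℕ := fun i s => sInf {t | i < g i t ∨ t = s}
  have cT : Computable₂ T :=
    c_least (P := fun (p : ℕ × ℕ) t => p.1 < g p.1 t ∨ t = p.2)
      (p_or (p_lt (c_fst (c_fst c_id)) (cg.comp (c_fst (c_fst c_id)) (c_snd c_id)))
        (p_eq (c_snd c_id) (c_snd (c_fst c_id)))) fun a => ⟨a.2, Or.inr rfl⟩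
  let X : ℕ → ℕ → ℕ := fun i t => Nat.pair (Nat.pair (Nat.pair 0 i) t) (Nat.pair 0 0)
  have hX : ∀ i t, D.str.dom (X i t) := fun i t => RunData.dom0 _
  have hX1 : ∀ i t, (X i t).unpair.1 = Nat.pair (Nat.pair 0 i) t := fun i t => by
    show (Nat.pair _ _).unpair.1 = _
    rw [Nat.unpair_pair]
  let u : ℕ → ℕ → ℕ := fun i s =>
    if i < g i (T i s) ∧ q (X i (T i s)) s ≠ 1 then max i (g i s) else i
  have cu : Computable₂ u := by
    have h1 : Computable fun p : ℕ × ℕ => p.1 := c_fst c_id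
    have h2 : Computable fun p : ℕ × ℕ => p.2 := c_snd c_id
    have h3 : Computable fun p : ℕ × ℕ => T p.1 p.2 := cT
    have h4 : Computable fun p : ℕ × ℕ => X p.1 (T p.1 p.2) :=
      c_npair (c_npair (c_npair (c_const 0) h1) h3) (c_const _)
    exact c_ite (p_and (p_lt h1 (cg.comp h1 h3)) (p_not (p_eq (cq.comp h4 h2) (c_const 1))))
      (c_max h1 (cg.comp h1 h2)) h1
  -- the value of the limit
  have key : ∀ i, (∃ k, LimIs (u i) k) ∧ ∀ k m, LimIs (g i) k → LimIs (u i) m → k ≤ m := by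
    intro i
    by_cases hbig : ∃ t, i < g i t
    · let t₀ := Nat.find hbig
      have ht₀ : i < g i t₀ := Nat.find_spec hbig
      have hmin : ∀ t < t₀, ¬ i < g i t := fun t ht => Nat.find_min hbig ht
      have hT : ∀ᶠ s in atTop, T i s = t₀ := by
        filter_upwards [ev_lt t₀] with s hs
        apply le_antisymm (Nat.sInf_le (Or.inl ht₀))
        by_contra hc
        have hc : T i s < t₀ := not_le.1 hc
        have hm : T i s ∈ {t | i < g i t ∨ t = s} := Nat.sInf_mem ⟨t₀, Or.inl ht₀⟩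
        rcases hm with hm | hm
        · exact hmin _ hc hm
        · have hm' : T i s = s := hm
          omega
      have hfull : D.Full (X i t₀).unpair.1 := by
        rw [hX1]
        unfold RunData.Full RunData.start
        rw [Nat.unpair_pair]
        refine ⟨⟨arr_ok0.2 ht₀, ?_⟩, fun s hs => arr_ok0.2 (lt_of_lt_of_le ht₀ (mg i hs))⟩
        by_cases h0 : t₀ = 0
        · exact Or.inl h0
        · right
          intro hc
          exact hmin (t₀ - 1) (by omega) (arr_ok0.1 hc)
      have hinf : (D.str.cls (X i t₀)).Infinite ↔ ∀ k, ¬ LimIs (g i) k := by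
        rw [RunData.infinite_iff (hX i t₀)]
        have e : D.w (X i t₀).unpair.1.unpair.1 = g i := by
          rw [hX1, Nat.unpair_pair]
          exact arr_w0 i
        rw [e]
        exact ⟨fun h k hk => h k ⟨hfull, hk⟩, fun h k hk => h k hk.2⟩
      by_cases hl : ∃ k, LimIs (g i) k
      · obtain ⟨k, hk⟩ := hl
        have hu : LimIs (u i) (max i k) := by
          rw [limIs_iff]
          filter_upwards [hT, hq _ (hX i t₀), limIs_iff.1 hk] with s h1 h2 h3
          have h4 : ¬ q (X i t₀) s = 1 := fun h5 => hinf.1 (h2.1 h5) k hk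
          show (if i < g i (T i s) ∧ q (X i (T i s)) s ≠ 1 then max i (g i s) else i) = _
          rw [h1, if_pos ⟨ht₀, h4⟩, h3]
        refine ⟨⟨_, hu⟩, fun k' m hk' hm => ?_⟩
        obtain ⟨s, h1, h2, h3, h4⟩ := ((limIs_iff.1 hk).and ((limIs_iff.1 hk').and
          ((limIs_iff.1 hu).and (limIs_iff.1 hm)))).exists
        have := le_max_right i k
        omega
      · push Not at hl
        have hu : LimIs (u i) i := by
          rw [limIs_iff]
          filter_upwards [hT, hq _ (hX i t₀)] with s h1 h2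
          have h4 : q (X i t₀) s = 1 := h2.2 (hinf.2 hl)
          show (if i < g i (T i s) ∧ q (X i (T i s)) s ≠ 1 then max i (g i s) else i) = _
          rw [h1, if_neg (fun h => h.2 h4)]
        exact ⟨⟨_, hu⟩, fun k' m hk' => absurd hk' (hl k')⟩
    · push Not at hbig
      have hu : LimIs (u i) i := by
        refine ⟨0, fun s _ => ?_⟩
        show (if i < g i (T i s) ∧ q (X i (T i s)) s ≠ 1 then max i (g i s) else i) = _
        rw [if_neg (fun h => absurd h.1 (by have := hbig (T i s); omega))]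
      refine ⟨⟨_, hu⟩, fun k m hk hm => ?_⟩
      obtain ⟨s, h1, h2, h3⟩ := ((limIs_iff.1 hk).and ((limIs_iff.1 hu).and
        (limIs_iff.1 hm))).exists
      have := hbig s
      omega
  choose F hF using fun i => (key i).1
  exact ⟨F, ⟨u, cu, hF⟩, fun i k hk => (key i).2 k (F i) hk (hF i)⟩

theorem catL_iff (A : CES) : CatL A ↔
    A.infClasses.Finite ∨ ABL fun k => (A.classes k).encard := by
  constructor
  · intro hA
    by_cases h : A.infClasses.Finite
    · exact Or.inl h
    · exact Or.inr (bounded_of_categorical hA h)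
  · exact categorical_of_cond

end Pool.Agent.H668.Eqv
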