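import Mathlib
import Pool.Agent.H668.Eq.Nec

set_option autoImplicit false

/-! The characterisation of `Δ⁰₂`-categorical equivalence structures. -/

namespace Pool.Agent.H668.Eqv

open Classical Filter CES
open Pool.Agent.Helper941.IsoProb Pool.Agent.Helper941.Zeta

theorem categorical_iff_catL (A : CES) : Categorical A ↔ CatL A := by
  unfold Categorical CatL
  simp only [limit_lemma]

theorem arrayBounded_iff_abl (N : ℕ → ℕ∞) : ArrayBounded N ↔ ABL N := by
  unfold ArrayBounded ABL IsArray
  simp only [limit_lemma]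
  exact ⟨fun h g h1 h2 h3 => h g ⟨h1, h2, h3⟩, fun h g ⟨h1, h2, h3⟩ => h g h1 h2 h3⟩

theorem decided_iff_bounded (N : ℕ → ℕ∞) : ArrayDecided N ↔ ArrayBounded N := by
  unfold ArrayDecided ArrayBounded
  simp only [limit_lemma]
  constructor
  · intro h g hg
    obtain ⟨F, ⟨q, cq, hq⟩, hF⟩ := h g hg
    obtain ⟨cg, mg, _⟩ := hg
    let u : ℕ → ℕ → ℕ := fun i s => if q i s = 1 then g i s else 0
    have cu : Computable₂ u := c_ite (p_eq cq (c_const 1)) cg (c_const 0)
    have key : ∀ i, ∃ m, LimIs (u i) m ∧ ∀ k, LimIs (g i) k → k = m := by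
      intro i
      by_cases h1 : F i = 1
      · obtain ⟨k, hk⟩ := (hF i).1 h1
        refine ⟨k, ?_, fun k' hk' => ?_⟩
        · rw [limIs_iff]
          filter_upwards [limIs_iff.1 (hq i), limIs_iff.1 hk] with s h2 h3
          show (if q i s = 1 then g i s else 0) = k
          rw [h2, if_pos h1, h3]
        · obtain ⟨s, h2, h3⟩ := ((limIs_iff.1 hk).and (limIs_iff.1 hk')).exists
          rw [← h2, ← h3]
      · refine ⟨0, ?_, fun k hk => absurd ((hF i).2 ⟨k, hk⟩) h1⟩
        rw [limIs_iff]
        filter_upwards [limIs_iff.1 (hq i)] with s h2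
        show (if q i s = 1 then g i s else 0) = 0
        rw [h2, if_neg h1]
    choose G hG using key
    exact ⟨G, ⟨u, cu, fun i => (hG i).1⟩, fun i k hk => le_of_eq ((hG i).2 k hk)⟩
  · intro h g hg
    obtain ⟨F, ⟨u, cu, hu⟩, hF⟩ := h g hg
    obtain ⟨cg, mg, _⟩ := hg
    let q : ℕ → ℕ → ℕ := fun i s => if g i s ≤ u i s then 1 else 0
    have cq : Computable₂ q := c_ite (p_le cg cu) (c_const 1) (c_const 0)
    have h1 : ∀ i k, LimIs (g i) k → LimIs (q i) 1 := by
      intro i k hk
      rw [limIs_iff]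
      filter_upwards [limIs_iff.1 (hu i), limIs_iff.1 hk] with s h2 h3
      show (if g i s ≤ u i s then 1 else 0) = 1
      rw [h2, h3, if_pos (hF i k hk)]
    have h0 : ∀ i, (∀ k, ¬ LimIs (g i) k) → LimIs (q i) 0 := by
      intro i hi
      rw [limIs_iff]
      filter_upwards [limIs_iff.1 (hu i),
        w_unbdd (r := fun _ => g i) (c := 0) (mg i) hi (F i)] with s h2 h3
      show (if g i s ≤ u i s then 1 else 0) = 0
      rw [h2, if_neg (by omega)]
    refine ⟨fun i => if ∃ k, LimIs (g i) k then 1 else 0, ⟨q, cq, fun i => ?_⟩, fun i => ?_⟩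
    · by_cases h2 : ∃ k, LimIs (g i) k
      · show LimIs (q i) (if ∃ k, LimIs (g i) k then 1 else 0)
        rw [if_pos h2]
        obtain ⟨k, hk⟩ := h2
        exact h1 i k hk
      · show LimIs (q i) (if ∃ k, LimIs (g i) k then 1 else 0)
        rw [if_neg h2]
        push Not at h2
        exact h0 i h2
    · show (if ∃ k, LimIs (g i) k then 1 else 0) = 1 ↔ _
      by_cases h2 : ∃ k, LimIs (g i) k
      · rw [if_pos h2]
        exact ⟨fun _ => h2, fun _ => rfl⟩
      · rw [if_neg h2]
        exact ⟨fun h => absurd h (by norm_num), fun h => absurd h h2⟩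

theorem main (A : CES) :
    (Categorical A ↔ A.infClasses.Finite ∨ ArrayBounded fun k => (A.classes k).encard) ∧
    (Categorical A ↔ A.infClasses.Finite ∨ ArrayDecided fun k => (A.classes k).encard) := by
  rw [categorical_iff_catL, decided_iff_bounded, arrayBounded_iff_abl]
  exact ⟨catL_iff A, catL_iff A⟩

end Pool.Agent.H668.Eqv
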